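import Mathlib

namespace Pool.Agent.Helper23.LC

open SimpleGraph

variable {V : Type*}

/-- A closed chain without repetitions and with at least three members is a cycle. -/
theorem exists_isCycle_of_list {G : SimpleGraph V} (l : List V) (hne : l ≠ [])
    (hc : l.IsChain G.Adj) (hnd : l.Nodup) (h3 : 3 ≤ l.length)
    (hcl : G.Adj (l.getLast hne) (l.head hne)) :
    ∃ (v : V) (c : G.Walk v v), c.IsCycle ∧ c.length = l.length := by
  refine ⟨_, Walk.cons hcl (Walk.ofSupport l hne hc), ?_, ?_⟩
  · rw [Walk.cons_isCycle_iff]
    have hp : (Walk.ofSupport l hne hc).IsPath := by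
      rw [Walk.isPath_def, Walk.support_ofSupport]
      exact hnd
    refine ⟨hp, fun h => ?_⟩
    have h1 := hp.length_eq_one_of_mem_edges (by rw [Sym2.eq_swap]; exact h)
    rw [Walk.length_ofSupport] at h1
    omega
  · rw [Walk.length_cons, Walk.length_ofSupport]
    omega

end Pool.Agent.Helper23.LC
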