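import Mathlib

namespace Pool.Agent.Helper23.LC

open Finset

variable {V : Type*} [DecidableEq V]

/-- Depth first search run until the finished set and the untouched set have the same size. -/
theorem dfs_half (r : V → V → Prop) (Y : Finset V) :
    ∃ (D U : Finset V) (P : List V), P.Nodup ∧ P.IsChain r ∧ D ⊆ Y ∧ U ⊆ Y ∧ (∀ x ∈ P, x ∈ Y) ∧
      Disjoint D U ∧ (∀ x ∈ P, x ∉ D ∧ x ∉ U) ∧ (∀ y ∈ Y, y ∈ D ∨ y ∈ U ∨ y ∈ P) ∧
      #D = #U ∧ ∀ d ∈ D, ∀ u ∈ U, ¬ r u d := by
  classical
  have key : ∀ j : ℕ, j ≤ #Y → ∃ (D U : Finset V) (P : List V), P.Nodup ∧ P.IsChain r ∧ D ⊆ Y ∧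
      U ⊆ Y ∧ (∀ x ∈ P, x ∈ Y) ∧ Disjoint D U ∧ (∀ x ∈ P, x ∉ D ∧ x ∉ U) ∧
      (∀ y ∈ Y, y ∈ D ∨ y ∈ U ∨ y ∈ P) ∧ #D + #Y = #U + j ∧ ∀ d ∈ D, ∀ u ∈ U, ¬ r u d := by
    intro j
    induction j with
    | zero =>
      intro _
      exact ⟨∅, Y, [], by simp, by simp, by simp, by simp, by simp, by simp, by simp,
        fun y hy => Or.inr (Or.inl hy), by simp, by simp⟩
    | succ j ih =>
      intro hj
      obtain ⟨D, U, P, h1, h2, h3, h4, h5, h6, h7, h8, h9, h10⟩ := ih (by omega)
      have hU : U.Nonempty := by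
        rw [← Finset.card_pos]
        omega
      rcases P with _ | ⟨v, P⟩
      · obtain ⟨u, hu⟩ := hU
        refine ⟨D, U.erase u, [u], by simp, by simp, h3, (Finset.erase_subset _ _).trans h4,
          ?_, ?_, ?_, ?_, ?_, ?_⟩
        · intro x hx
          rw [List.mem_singleton] at hx
          subst hx
          exact h4 hu
        · exact Finset.disjoint_of_subset_right (Finset.erase_subset _ _) h6
        · intro x hx
          rw [List.mem_singleton] at hx
          subst hx
          exact ⟨fun h => (Finset.disjoint_left.1 h6 h hu), by simp⟩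
        · intro y hy
          rcases h8 y hy with h | h | h
          · exact Or.inl h
          · by_cases hyu : y = u
            · subst hyu
              exact Or.inr (Or.inr (by simp))
            · exact Or.inr (Or.inl (Finset.mem_erase.2 ⟨hyu, h⟩))
          · simp at h
        · rw [Finset.card_erase_of_mem hu]
          have := Finset.card_pos.2 ⟨u, hu⟩
          omega
        · intro d hd w hw
          exact h10 d hd w (Finset.mem_of_mem_erase hw)
      · by_cases hex : ∃ u ∈ U, r u v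
        · obtain ⟨u, hu, hr⟩ := hex
          refine ⟨D, U.erase u, u :: v :: P, ?_, ?_, h3, (Finset.erase_subset _ _).trans h4,
            ?_, ?_, ?_, ?_, ?_, ?_⟩
          · rw [List.nodup_cons]
            exact ⟨fun h => (h7 u h).2 hu, h1⟩
          · rw [List.isChain_cons_cons]
            exact ⟨hr, h2⟩
          · intro x hx
            rcases List.mem_cons.1 hx with rfl | hx
            · exact h4 hu
            · exact h5 x hx
          · exact Finset.disjoint_of_subset_right (Finset.erase_subset _ _) h6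
          · intro x hx
            rcases List.mem_cons.1 hx with rfl | hx
            · exact ⟨fun h => (Finset.disjoint_left.1 h6 h hu), by simp⟩
            · exact ⟨(h7 x hx).1, fun h => (h7 x hx).2 (Finset.mem_of_mem_erase h)⟩
          · intro y hy
            rcases h8 y hy with h | h | h
            · exact Or.inl h
            · by_cases hyu : y = u
              · subst hyu
                exact Or.inr (Or.inr (by simp))
              · exact Or.inr (Or.inl (Finset.mem_erase.2 ⟨hyu, h⟩))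
            · exact Or.inr (Or.inr (List.mem_cons_of_mem _ h))
          · rw [Finset.card_erase_of_mem hu]
            have := Finset.card_pos.2 ⟨u, hu⟩
            omega
          · intro d hd w hw
            exact h10 d hd w (Finset.mem_of_mem_erase hw)
        · push Not at hex
          have hv := h7 v (by simp)
          have hvP : v ∉ P := (List.nodup_cons.1 h1).1
          refine ⟨insert v D, U, P, (List.nodup_cons.1 h1).2, h2.tail, ?_, h4, ?_, ?_, ?_, ?_,
            ?_, ?_⟩
          · intro x hx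
            rcases Finset.mem_insert.1 hx with rfl | hx
            · exact h5 x (by simp)
            · exact h3 hx
          · intro x hx
            exact h5 x (List.mem_cons_of_mem _ hx)
          · rw [Finset.disjoint_insert_left]
            exact ⟨hv.2, h6⟩
          · intro x hx
            refine ⟨fun h => ?_, (h7 x (List.mem_cons_of_mem _ hx)).2⟩
            rcases Finset.mem_insert.1 h with rfl | h
            · exact hvP hx
            · exact (h7 x (List.mem_cons_of_mem _ hx)).1 h
          · intro y hy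
            rcases h8 y hy with h | h | h
            · exact Or.inl (Finset.mem_insert_of_mem h)
            · exact Or.inr (Or.inl h)
            · rcases List.mem_cons.1 h with rfl | h
              · exact Or.inl (Finset.mem_insert_self _ _)
              · exact Or.inr (Or.inr h)
          · rw [Finset.card_insert_of_notMem hv.1]
            omega
          · intro d hd w hw
            rcases Finset.mem_insert.1 hd with rfl | hd
            · exact hex w hw
            · exact h10 d hd w hw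
  obtain ⟨D, U, P, h1, h2, h3, h4, h5, h6, h7, h8, h9, h10⟩ := key (#Y) le_rfl
  exact ⟨D, U, P, h1, h2, h3, h4, h5, h6, h7, h8, by omega, h10⟩

/-- any two large subsets of `X` and `Y` are joined by an edge -/
def Joined (Γ : SimpleGraph V) (a : ℕ) (X Y : Finset V) : Prop :=
  ∀ A ⊆ X, ∀ B ⊆ Y, a ≤ #A → a ≤ #B → ∃ x ∈ A, ∃ y ∈ B, Γ.Adj x y

/-- every member of `In` is connected to every member of `Out` by a path inside `S` with at
least `ℓ` vertices -/
def Gad (Γ : SimpleGraph V) (S : Set V) (In Out : Finset V) (ℓ : ℕ) : Prop :=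
  ∀ x ∈ In, ∀ y ∈ Out, ∃ l : List V, l.head? = some x ∧ l.getLast? = some y ∧
    l.IsChain Γ.Adj ∧ l.Nodup ∧ (∀ z ∈ l, z ∈ S) ∧ ℓ ≤ l.length

omit [DecidableEq V] in
theorem Gad.mono {Γ : SimpleGraph V} {S S' : Set V} {In Out : Finset V} {ℓ ℓ' : ℕ}
    (h : Gad Γ S In Out ℓ) (hS : S ⊆ S') (hl : ℓ' ≤ ℓ) : Gad Γ S' In Out ℓ' := by
  intro x hx y hy
  obtain ⟨l, h1, h2, h3, h4, h5, h6⟩ := h x hx y hy
  exact ⟨l, h1, h2, h3, h4, fun z hz => hS (h5 z hz), hl.trans h6⟩

omit [DecidableEq V] in
theorem Gad.append {Γ : SimpleGraph V} {S1 S2 : Set V} {In1 Out1 In2 Out2 : Finset V}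
    {l1 l2 : ℕ} (h1 : Gad Γ S1 In1 Out1 l1) (h2 : Gad Γ S2 In2 Out2 l2)
    (hd : Disjoint S1 S2) (he : ∃ y ∈ Out1, ∃ x ∈ In2, Γ.Adj y x) :
    Gad Γ (S1 ∪ S2) In1 Out2 (l1 + l2) := by
  intro x hx y hy
  obtain ⟨u, hu, v, hv, huv⟩ := he
  obtain ⟨p, a1, a2, a3, a4, a5, a6⟩ := h1 x hx u hu
  obtain ⟨q, b1, b2, b3, b4, b5, b6⟩ := h2 v hv y hy
  have hp : p ≠ [] := by rintro rfl; simp at a1
  have hq : q ≠ [] := by rintro rfl; simp at b1
  refine ⟨p ++ q, ?_, ?_, ?_, ?_, ?_, ?_⟩
  · rw [List.head?_append_of_ne_nil _ hp, a1]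
  · rw [List.getLast?_append_of_ne_nil _ hq, b2]
  · apply a3.append b3
    intro s hs t ht
    rw [a2] at hs
    rw [b1] at ht
    simp only [Option.mem_def, Option.some.injEq] at hs ht
    subst hs ht
    exact huv
  · rw [List.nodup_append]
    refine ⟨a4, b4, ?_⟩
    rintro s hs t ht rfl
    exact Set.disjoint_left.1 hd (a5 s hs) (b5 s ht)
  · intro z hz
    rcases List.mem_append.1 hz with hz | hz
    · exact Or.inl (a5 z hz)
    · exact Or.inr (b5 z hz)
  · rw [List.length_append]
    omega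

/-- In an alternating chain both sides occur almost equally often. -/
theorem alt_count (Y1 Y2 : Finset V) (hd : Disjoint Y1 Y2) (r : V → V → Prop)
    (hr : ∀ u d, r u d → (u ∈ Y1 ∧ d ∈ Y2) ∨ (u ∈ Y2 ∧ d ∈ Y1)) :
    ∀ P : List V, P.IsChain r → (∀ x ∈ P, x ∈ Y1 ∨ x ∈ Y2) →
      ((∀ x ∈ P.head?, x ∈ Y1 →
        (P.filter (· ∈ Y2)).length ≤ (P.filter (· ∈ Y1)).length ∧
        (P.filter (· ∈ Y1)).length ≤ (P.filter (· ∈ Y2)).length + 1) ∧
      (∀ x ∈ P.head?, x ∈ Y2 →
        (P.filter (· ∈ Y1)).length ≤ (P.filter (· ∈ Y2)).length ∧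
        (P.filter (· ∈ Y2)).length ≤ (P.filter (· ∈ Y1)).length + 1)) ∧
      (P.filter (· ∈ Y1)).length + (P.filter (· ∈ Y2)).length = P.length := by
  intro P
  induction P with
  | nil => simp
  | cons x P ih =>
    intro hc hP
    obtain ⟨⟨ih1, ih2⟩, ih3⟩ := ih hc.tail (fun y hy => hP y (List.mem_cons_of_mem _ hy))
    have hx := hP x (by simp)
    have hx12 : x ∈ Y1 → x ∉ Y2 := fun h1 h2 => Finset.disjoint_left.1 hd h1 h2
    rcases P with _ | ⟨y, P⟩
    · rcases hx with hx | hx
      · have := hx12 hx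
        simp [hx, this]
      · have : x ∉ Y1 := fun h => hx12 h hx
        simp [hx, this]
    · have hxy := hr x y (List.isChain_cons_cons.1 hc).1
      rcases hxy with ⟨h1, h2⟩ | ⟨h1, h2⟩
      · have h3 := hx12 h1
        have h4 := ih2 y (by simp) h2
        rw [List.filter_cons (x := x), List.filter_cons (x := x)]
        simp only [h1, h3, decide_true, decide_false, if_true, Bool.false_eq_true, if_false,
          List.length_cons, List.head?_cons, Option.mem_def, Option.some.injEq]
        rw [List.length_cons] at ih3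
        refine ⟨⟨?_, ?_⟩, by omega⟩
        · rintro z rfl _
          exact ⟨h4.2, by omega⟩
        · rintro z rfl hz
          exact absurd hz h3
      · have h3 : x ∉ Y1 := fun h => hx12 h h1
        have h4 := ih1 y (by simp) h2
        rw [List.filter_cons (x := x), List.filter_cons (x := x)]
        simp only [h1, h3, decide_true, decide_false, if_true, Bool.false_eq_true, if_false,
          List.length_cons, List.head?_cons, Option.mem_def, Option.some.injEq]
        rw [List.length_cons] at ih3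
        refine ⟨⟨?_, ?_⟩, by omega⟩
        · rintro z rfl hz
          exact absurd hz h3
        · rintro z rfl _
          exact ⟨h4.2, by omega⟩

theorem alt_count' (Y1 Y2 : Finset V) (hd : Disjoint Y1 Y2) (r : V → V → Prop)
    (hr : ∀ u d, r u d → (u ∈ Y1 ∧ d ∈ Y2) ∨ (u ∈ Y2 ∧ d ∈ Y1))
    (P : List V) (hP : P.IsChain r) (hY : ∀ x ∈ P, x ∈ Y1 ∨ x ∈ Y2) :
      (P.filter (· ∈ Y2)).length ≤ (P.filter (· ∈ Y1)).length + 1 ∧
        (P.filter (· ∈ Y1)).length ≤ (P.filter (· ∈ Y2)).length + 1 ∧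
      (P.filter (· ∈ Y1)).length + (P.filter (· ∈ Y2)).length = P.length := by
  obtain ⟨⟨h1, h2⟩, h3⟩ := alt_count Y1 Y2 hd r hr P hP hY
  rcases P with _ | ⟨x, P⟩
  · simp
  · rcases hY x (by simp) with hx | hx
    · have := h1 x (by simp) hx
      exact ⟨by omega, by omega, h3⟩
    · have := h2 x (by simp) hx
      exact ⟨by omega, by omega, h3⟩

theorem exists_gad_pair (Γ : SimpleGraph V) (Y1 Y2 : Finset V) (hd : Disjoint Y1 Y2) (a s : ℕ)
    (ha : 0 < a) (h1 : s ≤ #Y1) (h2 : s ≤ #Y2) (hs : 4 * a ≤ s) (hj : Joined Γ a Y1 Y2) :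
    ∃ In ⊆ Y1, ∃ Out ⊆ Y2, a ≤ #In ∧ a ≤ #Out ∧
      Gad Γ (↑Y1 ∪ ↑Y2) In Out (2 * s - 8 * a) := by
  classical
  obtain ⟨Z1, hZ1, hc1⟩ := Finset.exists_subset_card_eq h1
  obtain ⟨Z2, hZ2, hc2⟩ := Finset.exists_subset_card_eq h2
  have hdZ : Disjoint Z1 Z2 := Finset.disjoint_of_subset_left hZ1
    (Finset.disjoint_of_subset_right hZ2 hd)
  let r : V → V → Prop := fun u d => Γ.Adj u d ∧ ((u ∈ Z1 ∧ d ∈ Z2) ∨ (u ∈ Z2 ∧ d ∈ Z1))
  obtain ⟨D, U, P, p1, p2, p3, p4, p5, p6, p7, p8, p9, p10⟩ := dfs_half r (Z1 ∪ Z2)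
  have hPZ : ∀ x ∈ P, x ∈ Z1 ∨ x ∈ Z2 := fun x hx => Finset.mem_union.1 (p5 x hx)
  have hcnt := alt_count' Z1 Z2 hdZ r (fun u d h => h.2) P p2 hPZ
  -- sizes
  have hfin : ∀ Z : Finset V, (P.filter (· ∈ Z)).length = #(P.toFinset ∩ Z) := by
    intro Z
    have : (P.filter (· ∈ Z)).toFinset = P.toFinset ∩ Z := by
      ext x
      simp
    rw [← this, List.toFinset_card_of_nodup (p1.filter _)]
  have hsplit : ∀ Z : Finset V, Z ⊆ Z1 ∪ Z2 →
      #Z = #(D ∩ Z) + #(U ∩ Z) + #(P.toFinset ∩ Z) := by
    intro Z hZ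
    have e1 : Z = (D ∩ Z) ∪ ((U ∩ Z) ∪ (P.toFinset ∩ Z)) := by
      ext x
      simp only [Finset.mem_union, Finset.mem_inter, List.mem_toFinset]
      constructor
      · intro hx
        rcases p8 x (hZ hx) with h | h | h
        · exact Or.inl ⟨h, hx⟩
        · exact Or.inr (Or.inl ⟨h, hx⟩)
        · exact Or.inr (Or.inr ⟨h, hx⟩)
      · rintro (h | h | h) <;> exact h.2
    have d1 : Disjoint (U ∩ Z) (P.toFinset ∩ Z) := by
      rw [Finset.disjoint_left]
      intro x hx hx'
      rw [Finset.mem_inter] at hx hx'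
      exact (p7 x (List.mem_toFinset.1 hx'.1)).2 hx.1
    have d2 : Disjoint (D ∩ Z) ((U ∩ Z) ∪ (P.toFinset ∩ Z)) := by
      rw [Finset.disjoint_union_right]
      constructor
      · rw [Finset.disjoint_left]
        intro x hx hx'
        rw [Finset.mem_inter] at hx hx'
        exact Finset.disjoint_left.1 p6 hx.1 hx'.1
      · rw [Finset.disjoint_left]
        intro x hx hx'
        rw [Finset.mem_inter] at hx hx'
        exact (p7 x (List.mem_toFinset.1 hx'.1)).1 hx.1
    conv_lhs => rw [e1]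
    rw [Finset.card_union_of_disjoint d2, Finset.card_union_of_disjoint d1]
    ring
  have hs1 := hsplit Z1 Finset.subset_union_left
  have hs2 := hsplit Z2 Finset.subset_union_right
  have hDU : ∀ W ⊆ Z1 ∪ Z2, #W = #(W ∩ Z1) + #(W ∩ Z2) := by
    intro W hW
    rw [← Finset.card_union_of_disjoint, ← Finset.inter_union_distrib_left,
      Finset.inter_eq_left.2 hW]
    exact Finset.disjoint_of_subset_left Finset.inter_subset_right
      (Finset.disjoint_of_subset_right Finset.inter_subset_right hdZ)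
  have hD := hDU D p3
  have hU := hDU U p4
  have hj1 : ¬ (a ≤ #(D ∩ Z1) ∧ a ≤ #(U ∩ Z2)) := by
    rintro ⟨ha1, ha2⟩
    obtain ⟨x, hx, y, hy, hxy⟩ := hj (D ∩ Z1) (Finset.inter_subset_right.trans hZ1)
      (U ∩ Z2) (Finset.inter_subset_right.trans hZ2) ha1 ha2
    rw [Finset.mem_inter] at hx hy
    exact p10 x hx.1 y hy.1 ⟨hxy.symm, Or.inr ⟨hy.2, hx.2⟩⟩
  have hj2 : ¬ (a ≤ #(U ∩ Z1) ∧ a ≤ #(D ∩ Z2)) := by
    rintro ⟨ha1, ha2⟩
    obtain ⟨x, hx, y, hy, hxy⟩ := hj (U ∩ Z1) (Finset.inter_subset_right.trans hZ1)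
      (D ∩ Z2) (Finset.inter_subset_right.trans hZ2) ha1 ha2
    rw [Finset.mem_inter] at hx hy
    exact p10 y hy.1 x hx.1 ⟨hxy, Or.inl ⟨hx.2, hy.2⟩⟩
  rw [hfin, hfin] at hcnt
  have hlen : 2 * s - 4 * a + 2 ≤ P.length := by
    rw [hc1] at hs1
    rw [hc2] at hs2
    omega
  -- cut the path
  set m := P.length with hm
  let T := P.take (2 * a)
  let M := (P.drop (2 * a)).take (m - 4 * a)
  let E := (P.drop (2 * a)).drop (m - 4 * a)
  have hPs : P = T ++ (M ++ E) := by
    simp only [T, M, E, List.take_append_drop]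
  have hTl : T.length = 2 * a := by
    simp only [T, List.length_take]
    omega
  have hMl : M.length = m - 4 * a := by
    simp only [M, List.length_take, List.length_drop]
    omega
  have hEl : E.length = 2 * a := by
    simp only [E, List.length_drop]
    omega
  have hTP : ∀ x ∈ T, x ∈ P := fun x hx => by
    rw [hPs]; exact List.mem_append_left _ hx
  have hEP : ∀ x ∈ E, x ∈ P := fun x hx => by
    rw [hPs]; exact List.mem_append_right _ (List.mem_append_right _ hx)
  have hTc : T.IsChain r := p2.take _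
  have hEc : E.IsChain r := (p2.drop _).drop _
  have cT := alt_count' Z1 Z2 hdZ r (fun u d h => h.2) T hTc (fun x hx => hPZ x (hTP x hx))
  have cE := alt_count' Z1 Z2 hdZ r (fun u d h => h.2) E hEc (fun x hx => hPZ x (hEP x hx))
  have hTn : T.Nodup := p1.sublist (List.take_sublist _ _)
  have hEn : E.Nodup := p1.sublist ((List.drop_sublist _ _).trans (List.drop_sublist _ _))
  refine ⟨(T.filter (· ∈ Z1)).toFinset, ?_, (E.filter (· ∈ Z2)).toFinset, ?_, ?_, ?_, ?_⟩
  · intro x hx
    simp only [List.mem_toFinset, List.mem_filter, decide_eq_true_eq] at hx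
    exact hZ1 hx.2
  · intro x hx
    simp only [List.mem_toFinset, List.mem_filter, decide_eq_true_eq] at hx
    exact hZ2 hx.2
  · rw [List.toFinset_card_of_nodup (hTn.filter _)]
    omega
  · rw [List.toFinset_card_of_nodup (hEn.filter _)]
    omega
  · intro x hx y hy
    simp only [List.mem_toFinset, List.mem_filter, decide_eq_true_eq] at hx hy
    obtain ⟨t1, t2, ht⟩ := List.append_of_mem hx.1
    obtain ⟨d1, d2, hd'⟩ := List.append_of_mem hy.1
    have hin : (x :: (t2 ++ M ++ d1 ++ [y])) <:+: P := by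
      refine ⟨t1, d2, ?_⟩
      rw [hPs, ht, hd']
      simp
    refine ⟨x :: (t2 ++ M ++ d1 ++ [y]), by simp, ?_, ?_, ?_, ?_, ?_⟩
    · rw [List.getLast?_cons, List.getLast?_append_of_ne_nil _ (by simp)]
      simp
    · have hchain : (x :: (t2 ++ M ++ d1 ++ [y])).IsChain r := by
        obtain ⟨b1, b2, hb⟩ := hin
        have hp2' := p2
        rw [← hb] at hp2'
        exact hp2'.left_of_append.right_of_append
      exact hchain.imp fun u d h => h.1
    · exact p1.sublist hin.sublist
    · intro z hz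
      rcases hPZ z (hin.subset hz) with h | h
      · exact Or.inl (hZ1 h)
      · exact Or.inr (hZ2 h)
    · simp only [List.length_cons, List.length_append, List.length_nil]
      omega

end Pool.Agent.Helper23.LC
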