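import Mathlib
import Pool.Agent.Helper23.LC.Cyc
import Pool.Agent.Helper23.LC.Dfs2

namespace Pool.Agent.Helper23.LC

open Finset

variable {V : Type*} [DecidableEq V]

theorem disj_of_pairwise {Xs : List (Finset V)} (h : Xs.Pairwise Disjoint) {X Y : Finset V}
    (hX : X ∈ Xs) (hY : Y ∈ Xs) {v : V} (hv : v ∈ X) (hv' : v ∈ Y) : X = Y := by
  by_contra hne
  haveI : Std.Symm (Disjoint (α := Finset V)) := ⟨fun a b hab => Disjoint.symm hab⟩
  have := h.forall hX hY hne
  exact Finset.disjoint_left.1 this hv hv'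

theorem main_path (Γ : SimpleGraph V) (zf : Finset V → Finset V) (a s : ℕ)
    (ha : 0 < a) (hs : 4 * a ≤ s) :
    ∀ (n : ℕ) (Xs : List (Finset V)), Xs.length = 2 * (n + 1) → Xs.Pairwise Disjoint →
      Xs.IsChain (Joined Γ a) → (∀ X ∈ Xs, s ≤ #(X \ zf X)) →
      ∃ In Out : Finset V, (∀ X ∈ Xs.head?, In ⊆ X \ zf X) ∧ (∀ X ∈ Xs.getLast?, Out ⊆ X \ zf X) ∧
        a ≤ #In ∧ a ≤ #Out ∧
        Gad Γ {v | ∃ X ∈ Xs, v ∈ X ∧ v ∉ zf X} In Out ((n + 1) * (2 * s - 8 * a)) := by
  intro n
  induction n with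
  | zero =>
    intro Xs hlen hpw hch hcard
    obtain ⟨X1, X2, rfl⟩ := List.length_eq_two.1 (by simpa using hlen)
    have h12 : Disjoint X1 X2 := by simpa using hpw
    have hj : Joined Γ a X1 X2 := by simpa using hch
    obtain ⟨In, hIn, Out, hOut, c1, c2, hG⟩ := exists_gad_pair Γ (X1 \ zf X1) (X2 \ zf X2)
      (Finset.disjoint_of_subset_left Finset.sdiff_subset
        (Finset.disjoint_of_subset_right Finset.sdiff_subset h12)) a s ha
      (hcard X1 (by simp)) (hcard X2 (by simp)) hs
      (fun A hA B hB h1 h2 => hj A (hA.trans Finset.sdiff_subset) B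
        (hB.trans Finset.sdiff_subset) h1 h2)
    refine ⟨In, Out, by simpa using hIn, by simpa using hOut, c1, c2, ?_⟩
    apply hG.mono
    · rintro v (hv | hv)
      · have := Finset.mem_sdiff.1 (Finset.mem_coe.1 hv)
        exact ⟨X1, by simp, this.1, this.2⟩
      · have := Finset.mem_sdiff.1 (Finset.mem_coe.1 hv)
        exact ⟨X2, by simp, this.1, this.2⟩
    · simp
  | succ n ih =>
    intro Xs hlen hpw hch hcard
    rcases Xs with _ | ⟨X1, _ | ⟨X2, _ | ⟨X3, Xs⟩⟩⟩
    · simp at hlen
    · simp at hlen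
      omega
    · simp at hlen
    · have hpw' : (X3 :: Xs).Pairwise Disjoint := by
        rw [List.pairwise_cons, List.pairwise_cons] at hpw
        exact hpw.2.2
      have hch' : (X3 :: Xs).IsChain (Joined Γ a) := by
        rw [List.isChain_cons_cons, List.isChain_cons_cons] at hch
        exact hch.2.2
      obtain ⟨In2, Out2, i1, i2, i3, i4, i5⟩ := ih (X3 :: Xs)
        (by simp only [List.length_cons] at hlen ⊢; omega) hpw' hch'
        (fun X hX => hcard X (List.mem_cons_of_mem _ (List.mem_cons_of_mem _ hX)))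
      rw [List.isChain_cons_cons, List.isChain_cons_cons] at hch
      rw [List.pairwise_cons, List.pairwise_cons] at hpw
      have h12 : Disjoint X1 X2 := hpw.1 X2 (by simp)
      have hj : Joined Γ a X1 X2 := hch.1
      obtain ⟨In, hIn, Out, hOut, c1, c2, hG⟩ := exists_gad_pair Γ (X1 \ zf X1) (X2 \ zf X2)
        (Finset.disjoint_of_subset_left Finset.sdiff_subset
          (Finset.disjoint_of_subset_right Finset.sdiff_subset h12)) a s ha
        (hcard X1 (by simp)) (hcard X2 (by simp)) hs
        (fun A hA B hB h1 h2 => hj A (hA.trans Finset.sdiff_subset) B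
          (hB.trans Finset.sdiff_subset) h1 h2)
      have hIn2 : In2 ⊆ X3 \ zf X3 := i1 X3 (by simp)
      have hjoin : ∃ y ∈ Out, ∃ x ∈ In2, Γ.Adj y x :=
        hch.2.1 Out (hOut.trans Finset.sdiff_subset) In2 (hIn2.trans Finset.sdiff_subset) c2 i3
      have hdis : Disjoint ((↑(X1 \ zf X1) ∪ ↑(X2 \ zf X2) : Set V))
          {v | ∃ X ∈ X3 :: Xs, v ∈ X ∧ v ∉ zf X} := by
        rw [Set.disjoint_left]
        rintro v hv ⟨X, hX, hvX, -⟩
        rcases hv with hv | hv
        · have := Finset.mem_sdiff.1 (Finset.mem_coe.1 hv)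
          exact Finset.disjoint_left.1 (hpw.1 X (List.mem_cons_of_mem _ hX)) this.1 hvX
        · have := Finset.mem_sdiff.1 (Finset.mem_coe.1 hv)
          exact Finset.disjoint_left.1 (hpw.2.1 X hX) this.1 hvX
      refine ⟨In, Out2, by simpa using hIn, ?_, c1, i4, ?_⟩
      · intro X hX
        apply i2 X
        simpa using hX
      · apply (hG.append i5 hdis hjoin).mono
        · rintro v ((hv | hv) | ⟨X, hX, hv⟩)
          · have := Finset.mem_sdiff.1 (Finset.mem_coe.1 hv)
            exact ⟨X1, by simp, this.1, this.2⟩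
          · have := Finset.mem_sdiff.1 (Finset.mem_coe.1 hv)
            exact ⟨X2, by simp, this.1, this.2⟩
          · exact ⟨X, List.mem_cons_of_mem _ (List.mem_cons_of_mem _ hX), hv⟩
        · have : (n + 1 + 1) * (2 * s - 8 * a) =
            (2 * s - 8 * a) + (n + 1) * (2 * s - 8 * a) := by ring
          omega

theorem return_path (Γ : SimpleGraph V) (zf : Finset V → Finset V) (a : ℕ)
    (Out : Finset V) (hOut : a ≤ #Out) :
    ∀ (Xs : List (Finset V)), 2 ≤ Xs.length → Xs.Pairwise Disjoint →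
      Xs.IsChain (Joined Γ a) → (∀ X ∈ Xs, zf X ⊆ X ∧ 2 * a ≤ #(zf X)) →
      (∀ X ∈ Xs.getLast?, Out ⊆ X) → ∀ B : Finset V, (∀ X ∈ Xs.head?, B ⊆ X) → a ≤ #B →
      ∃ x ∈ B, ∃ y ∈ Out, ∃ m : List V, (x :: (m ++ [y])).IsChain Γ.Adj ∧ m.Nodup ∧
        ∀ z ∈ m, ∃ X ∈ Xs.tail, z ∈ zf X := by
  intro Xs
  induction Xs with
  | nil => intro h; simp at h
  | cons X Xs ih =>
    intro hlen hpw hch hz hO B hB hBa
    rcases Xs with _ | ⟨X', Xs⟩
    · simp at hlen
    · have hBX : B ⊆ X := hB X (by simp)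
      rw [List.isChain_cons_cons] at hch
      rcases Xs with _ | ⟨X'', Xs⟩
      · have hOX : Out ⊆ X' := hO X' (by simp)
        obtain ⟨x, hx, y, hy, hxy⟩ := hch.1 B hBX Out hOX hBa hOut
        exact ⟨x, hx, y, hy, [], by simpa using hxy, by simp, by simp⟩
      · rw [List.pairwise_cons] at hpw
        classical
        let B' := (zf X').filter fun z => ∃ x ∈ B, Γ.Adj x z
        have hzX' := hz X' (by simp)
        have hB' : a ≤ #B' := by
          by_contra hcon
          push Not at hcon
          have h1 : a ≤ #(zf X' \ B') := by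
            have := Finset.le_card_sdiff B' (zf X')
            omega
          obtain ⟨x, hx, z, hzz, hxz⟩ := hch.1 B hBX (zf X' \ B')
            (Finset.sdiff_subset.trans hzX'.1) hBa h1
          rw [Finset.mem_sdiff, Finset.mem_filter] at hzz
          exact hzz.2 ⟨hzz.1, x, hx, hxz⟩
        obtain ⟨x', hx', y, hy, m', c1, c2, c3⟩ := ih (by simp) hpw.2 hch.2
          (fun W hW => hz W (List.mem_cons_of_mem _ hW)) (fun W hW => hO W (by simpa using hW))
          B' (by
            intro W hW
            simp only [List.head?_cons, Option.mem_def, Option.some.injEq] at hW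
            subst hW
            exact (Finset.filter_subset _ _).trans hzX'.1) hB'
        rw [Finset.mem_filter] at hx'
        obtain ⟨hx'z, x, hx, hxx'⟩ := hx'
        refine ⟨x, hx, y, hy, x' :: m', ?_, ?_, ?_⟩
        · rw [List.cons_append, List.isChain_cons_cons]
          exact ⟨hxx', c1⟩
        · rw [List.nodup_cons]
          refine ⟨fun hmem => ?_, c2⟩
          obtain ⟨W, hW, hxW⟩ := c3 x' hmem
          have hW' : W ∈ X'' :: Xs := by simpa using hW
          have h1 := (List.pairwise_cons.1 hpw.2).1 W hW'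
          exact Finset.disjoint_left.1 h1 (hzX'.1 hx'z)
            ((hz W (List.mem_cons_of_mem _ (List.mem_cons_of_mem _ hW'))).1 hxW)
        · intro z hzm
          rcases List.mem_cons.1 hzm with rfl | hzm
          · exact ⟨X', by simp, hx'z⟩
          · obtain ⟨W, hW, hzW⟩ := c3 z hzm
            refine ⟨W, ?_, hzW⟩
            simp only [List.tail_cons] at hW ⊢
            exact List.mem_cons_of_mem _ hW

/-- A chain of `2 (n + 1)` pairwise disjoint clusters, consecutive ones being joined, carries a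
cycle through almost all vertices. -/
theorem cluster_cycle (Γ : SimpleGraph V) (a s n : ℕ) (ha : 0 < a) (hs : 6 * a + 2 ≤ s)
    (Xs : List (Finset V)) (hlen : Xs.length = 2 * (n + 1)) (hpw : Xs.Pairwise Disjoint)
    (hch : Xs.IsChain (Joined Γ a)) (hcard : ∀ X ∈ Xs, s ≤ #X) :
    ∃ (v : V) (c : Γ.Walk v v), c.IsCycle ∧ 2 * (n + 1) * (s - 6 * a) ≤ c.length := by
  classical
  have hz : ∀ X : Finset V, ∃ Z : Finset V, 2 * a ≤ #X → Z ⊆ X ∧ #Z = 2 * a := by
    intro X
    by_cases h : 2 * a ≤ #X
    · obtain ⟨Z, hZ⟩ := Finset.exists_subset_card_eq h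
      exact ⟨Z, fun _ => hZ⟩
    · exact ⟨∅, fun h' => absurd h' h⟩
  choose zf hzf using hz
  have hzf' : ∀ X ∈ Xs, zf X ⊆ X ∧ #(zf X) = 2 * a := fun X hX =>
    hzf X (by have := hcard X hX; omega)
  obtain ⟨In, Out, i1, i2, i3, i4, i5⟩ := main_path Γ zf a (s - 2 * a) ha (by omega) n Xs hlen
    hpw hch (by
      intro X hX
      rw [Finset.card_sdiff_of_subset (hzf' X hX).1, (hzf' X hX).2]
      have := hcard X hX
      omega)
  obtain ⟨x, hx, y, hy, m, r1, r2, r3⟩ := return_path Γ zf a Out i4 Xs (by omega) hpw hch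
    (fun X hX => ⟨(hzf' X hX).1, by rw [(hzf' X hX).2]⟩)
    (fun X hX => (i2 X hX).trans Finset.sdiff_subset) In
    (fun X hX => (i1 X hX).trans Finset.sdiff_subset) i3
  obtain ⟨l, l1, l2, l3, l4, l5, l6⟩ := i5 x hx y hy
  have hlne : l ≠ [] := by rintro rfl; simp at l1
  have hl0 : l.dropLast ++ [y] = l := by
    have h := List.dropLast_append_getLast hlne
    rw [List.getLast?_eq_getLast_of_ne_nil hlne, Option.some.injEq] at l2
    rw [l2] at h
    exact h
  have hrev : ([y] ++ (m.reverse ++ [x])).IsChain Γ.Adj := by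
    have h : ([y] ++ (m.reverse ++ [x])) = (x :: (m ++ [y])).reverse := by simp
    rw [h, List.isChain_reverse]
    exact r1.imp fun a b hab => hab.symm
  have hall : (l ++ m.reverse ++ [x]).IsChain Γ.Adj := by
    have h : (l.dropLast ++ [y] ++ (m.reverse ++ [x])).IsChain Γ.Adj := by
      apply List.IsChain.append_overlap _ hrev (by simp)
      rw [hl0]
      exact l3
    rw [hl0] at h
    rwa [List.append_assoc]
  have hcne : l ++ m.reverse ≠ [] := by
    intro h
    exact hlne (List.append_eq_nil_iff.1 h).1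
  have hlen2 : 2 * (n + 1) * (s - 6 * a) ≤ l.length := by
    refine le_trans (le_of_eq ?_) l6
    have e1 : 2 * (s - 2 * a) - 8 * a = 2 * (s - 6 * a) := by omega
    rw [e1]
    ring
  have hlen3 : 4 ≤ l.length := by
    refine le_trans ?_ hlen2
    have h1 : 2 ≤ s - 6 * a := by omega
    have h2 : 2 * 1 * 2 ≤ 2 * (n + 1) * (s - 6 * a) :=
      Nat.mul_le_mul (Nat.mul_le_mul_left 2 (by omega)) h1
    omega
  obtain ⟨v, c, hc1, hc2⟩ := exists_isCycle_of_list (G := Γ) (l ++ m.reverse) hcne
    hall.left_of_append (by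
      rw [List.nodup_append]
      refine ⟨l4, List.nodup_reverse.2 r2, ?_⟩
      rintro z hz w hw rfl
      rw [List.mem_reverse] at hw
      obtain ⟨X, hX, hzX, hzz⟩ := l5 z hz
      obtain ⟨Y, hY, hzY⟩ := r3 z hw
      have hY' : Y ∈ Xs := List.mem_of_mem_tail hY
      have := disj_of_pairwise hpw hX hY' hzX ((hzf' Y hY').1 hzY)
      subst this
      exact hzz hzY)
    (by rw [List.length_append]; omega)
    (by
      have h := hall.rel_getLast_head_of_append hcne (by simp)
      have h2 : (l ++ m.reverse).head hcne = x := by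
        rw [List.head_append_of_ne_nil hlne]
        rw [List.head?_eq_some_head hlne, Option.some.injEq] at l1
        exact l1
      rw [h2]
      simpa using h)
  refine ⟨v, c, hc1, ?_⟩
  rw [hc2, List.length_append]
  omega

end Pool.Agent.Helper23.LC
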