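import Mathlib

namespace Pool.Agent.Helper23.LC

open Finset

section EG

variable {ι : Type*} [DecidableEq ι] (R : SimpleGraph ι) [DecidableRel R.Adj]

/-- indicator of adjacency -/
def ind (x y : ι) : ℕ := if R.Adj x y then 1 else 0

omit [DecidableEq ι] in
theorem ind_comm (x y : ι) : ind R x y = ind R y x := by
  unfold ind
  simp only [R.adj_comm]

omit [DecidableEq ι] in
theorem ind_self (x : ι) : ind R x x = 0 := by
  simp [ind]

/-- twice the number of edges inside `W` -/
def tw (W : Finset ι) : ℕ := ∑ x ∈ W, ∑ y ∈ W, ind R x y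

theorem tw_union (A B : Finset ι) (h : Disjoint A B) :
    tw R (A ∪ B) = tw R A + tw R B + 2 * ∑ a ∈ A, ∑ b ∈ B, ind R a b := by
  unfold tw
  rw [Finset.sum_union h]
  simp only [Finset.sum_union h, Finset.sum_add_distrib]
  have h1 : ∑ x ∈ B, ∑ y ∈ A, ind R x y = ∑ a ∈ A, ∑ b ∈ B, ind R a b := by
    rw [Finset.sum_comm]
    exact Finset.sum_congr rfl fun a _ => Finset.sum_congr rfl fun b _ => ind_comm R b a
  rw [h1]
  ring

theorem tw_le (W : Finset ι) : tw R W + #W ≤ #W * #W := by
  have h1 : tw R W + #W = ∑ x ∈ W, (∑ y ∈ W, ind R x y + 1) := by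
    rw [Finset.sum_add_distrib]
    simp [tw]
  rw [h1]
  have h2 : ∀ x ∈ W, (∑ y ∈ W, ind R x y + 1) ≤ #W := by
    intro x hx
    rw [← Finset.add_sum_erase W _ hx, ind_self, zero_add]
    have h3 : ∑ y ∈ W.erase x, ind R x y ≤ ∑ y ∈ W.erase x, 1 := by
      apply Finset.sum_le_sum
      intro y _
      unfold ind
      split_ifs <;> simp
    rw [Finset.sum_const, smul_eq_mul, mul_one, Finset.card_erase_of_mem hx] at h3
    have : 0 < #W := Finset.card_pos.2 ⟨x, hx⟩
    omega
  calc ∑ x ∈ W, (∑ y ∈ W, ind R x y + 1) ≤ ∑ x ∈ W, #W := Finset.sum_le_sum h2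
    _ = #W * #W := by simp

theorem exists_minimal_dense [Fintype ι] (q : ℕ)
    (h : q * Fintype.card ι < tw R univ + Fintype.card ι) :
    ∃ W : Finset ι, q * #W < tw R W + #W ∧
      (∀ x ∈ W, q ≤ 2 * ∑ y ∈ W, ind R x y) ∧
      (∀ A ⊆ W, A.Nonempty → A ≠ W → ∃ a ∈ A, ∃ b ∈ W, b ∉ A ∧ R.Adj a b) := by
  obtain ⟨W, hW⟩ := exists_minimal_of_wellFoundedLT
    (fun W : Finset ι => q * #W < tw R W + #W) ⟨univ, by simpa using h⟩
  have hP : q * #W < tw R W + #W := hW.1
  have hmin : ∀ W' ⊂ W, tw R W' + #W' ≤ q * #W' := by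
    intro W' hW'
    by_contra hcon
    push Not at hcon
    exact absurd (hW.2 hcon hW'.1) hW'.2
  refine ⟨W, hP, ?_, ?_⟩
  · intro x hx
    have h1 := hmin (W.erase x) (Finset.erase_ssubset hx)
    have h2 := tw_union R (W.erase x) {x} (by simp)
    rw [Finset.erase_union_of_mem (by simp)] at h2
    have h3 : W ∪ {x} = W := by
      ext y
      simp only [Finset.mem_union, Finset.mem_singleton]
      constructor
      · rintro (h | rfl)
        · exact h
        · exact hx
      · exact fun h => Or.inl h
    rw [h3] at h2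
    have h4 : tw R {x} = 0 := by simp [tw, ind_self]
    have h5 : ∑ a ∈ W.erase x, ∑ b ∈ ({x} : Finset ι), ind R a b = ∑ y ∈ W, ind R x y := by
      rw [← Finset.add_sum_erase W (fun y => ind R x y) hx, ind_self, zero_add]
      refine Finset.sum_congr rfl fun y _ => ?_
      rw [Finset.sum_singleton, ind_comm]
    rw [h4, h5] at h2
    rw [Finset.card_erase_of_mem hx] at h1
    have h6 : 0 < #W := Finset.card_pos.2 ⟨x, hx⟩
    obtain ⟨m, hm⟩ : ∃ m, #W = m + 1 := ⟨#W - 1, by omega⟩
    rw [hm] at h1 hP
    simp only [Nat.add_sub_cancel] at h1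
    rw [mul_add, mul_one] at hP
    omega
  · intro A hA hne hAW
    by_contra hcon
    push Not at hcon
    have h1 := hmin A (hA.ssubset_of_ne hAW)
    have h2 := hmin (W \ A) (Finset.sdiff_ssubset hA hne)
    have h3 := tw_union R A (W \ A) Finset.disjoint_sdiff
    rw [Finset.union_sdiff_of_subset hA] at h3
    have h4 : ∑ a ∈ A, ∑ b ∈ W \ A, ind R a b = 0 := by
      apply Finset.sum_eq_zero
      intro a ha
      apply Finset.sum_eq_zero
      intro b hb
      rw [Finset.mem_sdiff] at hb
      simp [ind, hcon a ha b hb.1 hb.2]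
    have h5 : #W = #A + #(W \ A) := by
      rw [Finset.card_sdiff_of_subset hA]
      have := Finset.card_le_card hA
      omega
    rw [h4] at h3
    rw [h5, mul_add] at hP
    omega

theorem extend_path (q : ℕ) (W : Finset ι) (hP : q * #W < tw R W + #W)
    (hdeg : ∀ x ∈ W, q ≤ 2 * ∑ y ∈ W, ind R x y)
    (hconn : ∀ A ⊆ W, A.Nonempty → A ≠ W → ∃ a ∈ A, ∃ b ∈ W, b ∉ A ∧ R.Adj a b)
    (l : List ι) (hne : l ≠ []) (hc : l.IsChain R.Adj) (hnd : l.Nodup) (hl : ∀ x ∈ l, x ∈ W)
    (hlen : l.length ≤ q) :
    ∃ l' : List ι, l'.IsChain R.Adj ∧ l'.Nodup ∧ (∀ x ∈ l', x ∈ W) ∧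
      l'.length = l.length + 1 := by
  classical
  by_cases hx0 : ∀ y ∈ W, R.Adj (l.head hne) y → y ∈ l
  swap
  · push Not at hx0
    obtain ⟨y, hy, hadj, hyl⟩ := hx0
    refine ⟨y :: l, ?_, ?_, ?_, by simp⟩
    · exact hc.cons_of_ne_nil hne hadj.symm
    · exact List.nodup_cons.2 ⟨hyl, hnd⟩
    · intro x hx
      rcases List.mem_cons.1 hx with rfl | hx
      · exact hy
      · exact hl x hx
  by_cases hxt : ∀ y ∈ W, R.Adj (l.getLast hne) y → y ∈ l
  swap
  · push Not at hxt
    obtain ⟨y, hy, hadj, hyl⟩ := hxt
    refine ⟨l ++ [y], ?_, ?_, ?_, by simp⟩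
    · apply hc.append (by simp)
      intro a ha b hb
      rw [List.getLast?_eq_getLast_of_ne_nil hne] at ha
      simp only [Option.mem_def, Option.some.injEq, List.head?_cons] at ha hb
      subst ha hb
      exact hadj
    · rw [List.nodup_append]
      refine ⟨hnd, by simp, ?_⟩
      intro a ha b hb
      rw [List.mem_singleton] at hb
      subst hb
      rintro rfl
      exact hyl ha
    · intro x hx
      rcases List.mem_append.1 hx with hx | hx
      · exact hl x hx
      · rw [List.mem_singleton] at hx
        subst hx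
        exact hy
  -- crossing
  set x0 := l.head hne with hx0def
  set xt := l.getLast hne with hxtdef
  have hjpos : 0 < l.length := List.length_pos_of_ne_nil hne
  let N0 := (range (l.length - 1)).filter fun i => R.Adj x0 (l.getD (i + 1) x0)
  let Nt := (range (l.length - 1)).filter fun i => R.Adj xt (l.getD i x0)
  have hsum : ∀ x, ∑ y ∈ W, ind R x y = #(W.filter (R.Adj x)) := by
    intro x
    rw [Finset.card_filter]
    rfl
  have h0 : #(W.filter (R.Adj x0)) ≤ #N0 := by
    calc #(W.filter (R.Adj x0)) ≤ #(N0.image fun i => l.getD (i + 1) x0) := by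
          apply Finset.card_le_card
          intro y hy
          rw [Finset.mem_filter] at hy
          have hyl := hx0 y hy.1 hy.2
          obtain ⟨i, hi, hiy⟩ := List.getElem_of_mem hyl
          have hi0 : i ≠ 0 := by
            rintro rfl
            have : l[0] = x0 := by rw [hx0def, List.head_eq_getElem]
            rw [this] at hiy
            exact hy.2.ne hiy
          rw [Finset.mem_image]
          refine ⟨i - 1, ?_, ?_⟩
          · rw [Finset.mem_filter, Finset.mem_range]
            refine ⟨by omega, ?_⟩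
            rw [Nat.sub_add_cancel (by omega), List.getD_eq_getElem _ _ hi, hiy]
            exact hy.2
          · rw [Nat.sub_add_cancel (by omega), List.getD_eq_getElem _ _ hi, hiy]
      _ ≤ #N0 := Finset.card_image_le
  have ht : #(W.filter (R.Adj xt)) ≤ #Nt := by
    calc #(W.filter (R.Adj xt)) ≤ #(Nt.image fun i => l.getD i x0) := by
          apply Finset.card_le_card
          intro y hy
          rw [Finset.mem_filter] at hy
          have hyl := hxt y hy.1 hy.2
          obtain ⟨i, hi, hiy⟩ := List.getElem_of_mem hyl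
          have hi0 : i ≠ l.length - 1 := by
            intro hi0
            have : l[i] = xt := by
              rw [hxtdef, List.getLast_eq_getElem]
              congr 1
            rw [this] at hiy
            exact hy.2.ne hiy
          rw [Finset.mem_image]
          refine ⟨i, ?_, ?_⟩
          · rw [Finset.mem_filter, Finset.mem_range]
            refine ⟨by omega, ?_⟩
            rw [List.getD_eq_getElem _ _ hi, hiy]
            exact hy.2
          · rw [List.getD_eq_getElem _ _ hi, hiy]
      _ ≤ #Nt := Finset.card_image_le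
  have hd0 := hdeg x0 (hl _ (List.head_mem hne))
  have hdt := hdeg xt (hl _ (List.getLast_mem hne))
  rw [hsum] at hd0 hdt
  have hinter : (N0 ∩ Nt).Nonempty := by
    rw [← Finset.card_pos]
    have h1 := Finset.card_union_add_card_inter N0 Nt
    have h2 : #(N0 ∪ Nt) ≤ l.length - 1 := by
      calc #(N0 ∪ Nt) ≤ #(range (l.length - 1)) := by
            apply Finset.card_le_card
            exact Finset.union_subset (Finset.filter_subset _ _) (Finset.filter_subset _ _)
        _ = _ := by simp
    omega
  obtain ⟨i, hi⟩ := hinter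
  rw [Finset.mem_inter, Finset.mem_filter, Finset.mem_filter, Finset.mem_range] at hi
  obtain ⟨⟨hi1, hi2⟩, -, hi3⟩ := hi
  rw [List.getD_eq_getElem _ _ (by omega)] at hi2 hi3
  -- the cycle
  let c := l.take (i + 1) ++ (l.drop (i + 1)).reverse
  have hne1 : l.take (i + 1) ≠ [] := by
    intro h
    rw [List.take_eq_nil_iff] at h
    rcases h with h | h
    · omega
    · exact hne h
  have hne2 : l.drop (i + 1) ≠ [] := by
    intro h
    rw [List.drop_eq_nil_iff] at h
    omega
  have hne2' : (l.drop (i + 1)).reverse ≠ [] := by simpa using hne2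
  have hperm : c.Perm l := by
    have h1 : c.Perm (l.take (i + 1) ++ l.drop (i + 1)) :=
      List.Perm.append_left _ (List.reverse_perm _)
    rwa [List.take_append_drop] at h1
  have hcc : c.IsChain R.Adj := by
    apply (hc.take _).append
    · rw [List.isChain_reverse]
      have h := hc.drop (i + 1)
      exact h.imp fun a b hab => hab.symm
    · intro a ha b hb
      rw [List.getLast?_eq_getLast_of_ne_nil hne1] at ha
      rw [List.head?_eq_some_head hne2'] at hb
      simp only [Option.mem_def, Option.some.injEq] at ha hb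
      have ha' : a = l[i] := by
        rw [← ha, List.getLast_eq_getElem]
        simp only [List.length_take, List.getElem_take]
        congr 1
        omega
      have hb' : b = xt := by
        rw [← hb, List.head_reverse, List.getLast_drop]
      rw [ha', hb']
      exact hi3.symm
  have hcne : c ≠ [] := by
    intro h
    exact hne1 (List.append_eq_nil_iff.1 h).1
  have hclose : R.Adj (c.getLast hcne) (c.head hcne) := by
    have h1 : c.getLast hcne = l[i + 1] := by
      rw [List.getLast_append_of_ne_nil _ hne2', List.getLast_reverse, List.head_drop]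
    have h2 : c.head hcne = x0 := by
      rw [List.head_append_of_ne_nil hne1, List.head_take, hx0def]
    rw [h1, h2]
    exact hi2.symm
  have hcnd : c.Nodup := hperm.nodup_iff.2 hnd
  have hcW : c.toFinset ⊆ W := by
    intro x hx
    rw [List.mem_toFinset] at hx
    exact hl x (hperm.mem_iff.1 hx)
  have hccard : #c.toFinset = l.length := by
    rw [List.toFinset_card_of_nodup hcnd, hperm.length_eq]
  by_cases hcW' : c.toFinset = W
  · exfalso
    rw [hcW'] at hccard
    have h1 := tw_le R W
    have h2 : #W * #W ≤ q * #W := Nat.mul_le_mul_right _ (by omega)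
    omega
  · obtain ⟨a, ha, b, hb, hbc, hab⟩ := hconn c.toFinset hcW
      ⟨c.head hcne, List.mem_toFinset.2 (List.head_mem hcne)⟩ hcW'
    rw [List.mem_toFinset] at ha hbc
    obtain ⟨c1, c2, hcs⟩ := List.append_of_mem ha
    have hperm2 : (a :: c2 ++ c1).Perm c := by
      rw [hcs]
      exact List.perm_append_comm
    refine ⟨b :: (a :: c2 ++ c1), ?_, ?_, ?_, ?_⟩
    · rw [hcs] at hcc
      have hr := hcc.right_of_append
      have hlf := hcc.left_of_append
      rw [List.cons_append]
      rw [List.isChain_cons_cons]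
      refine ⟨hab.symm, ?_⟩
      rw [← List.cons_append]
      apply hr.append hlf
      intro u hu v hv
      have hc1 : c1 ≠ [] := by
        rintro rfl
        simp at hv
      have hu' : c.getLast? = some u := by
        rw [hcs, List.getLast?_append_of_ne_nil _ (by simp)]
        exact hu
      have hv' : c.head? = some v := by
        rw [hcs, List.head?_append_of_ne_nil _ hc1]
        exact hv
      rw [List.getLast?_eq_getLast_of_ne_nil hcne, Option.some.injEq] at hu'
      rw [List.head?_eq_some_head hcne, Option.some.injEq] at hv'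
      rw [← hu', ← hv']
      exact hclose
    · rw [List.nodup_cons]
      exact ⟨fun h => hbc (hperm2.mem_iff.1 h), hperm2.nodup_iff.2 hcnd⟩
    · intro x hx
      rcases List.mem_cons.1 hx with rfl | hx
      · exact hb
      · exact hcW (List.mem_toFinset.2 (hperm2.mem_iff.1 hx))
    · rw [List.length_cons, hperm2.length_eq, hperm.length_eq]

/-- Erdos-Gallai for paths: a graph with more than `(q - 1) n / 2` edges has a path with
`q` edges. -/
theorem exists_path [Fintype ι] (q : ℕ)
    (h : q * Fintype.card ι < tw R univ + Fintype.card ι) :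
    ∃ l : List ι, l.IsChain R.Adj ∧ l.Nodup ∧ l.length = q + 1 := by
  obtain ⟨W, hP, hdeg, hconn⟩ := exists_minimal_dense R q h
  have key : ∀ j : ℕ, j ≤ q → ∃ l : List ι, l.IsChain R.Adj ∧ l.Nodup ∧
      (∀ x ∈ l, x ∈ W) ∧ l.length = j + 1 := by
    intro j
    induction j with
    | zero =>
      intro _
      have hWne : W.Nonempty := by
        rw [Finset.nonempty_iff_ne_empty]
        rintro rfl
        simp [tw] at hP
      obtain ⟨x, hx⟩ := hWne
      exact ⟨[x], by simp, by simp, by simpa using hx, by simp⟩
    | succ j ih =>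
      intro hj
      obtain ⟨l, h1, h2, h3, h4⟩ := ih (by omega)
      obtain ⟨l', h1', h2', h3', h4'⟩ := extend_path R q W hP hdeg hconn l
        (by rintro rfl; simp at h4) h1 h2 h3 (by omega)
      exact ⟨l', h1', h2', h3', by omega⟩
  obtain ⟨l, h1, h2, -, h4⟩ := key q le_rfl
  exact ⟨l, h1, h2, h4⟩

end EG

end Pool.Agent.Helper23.LC
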