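import Mathlib
import Pool.Agent.Helper23.LC.EG
import Pool.Agent.Helper23.LC.Clusters

namespace Pool.Agent.Helper23.LC

open Finset

universe u

/-- The arithmetic at the end of the regularity argument. -/
theorem dense_arith (ε l N t T s q a : ℝ) (hε : 0 < ε) (hε1 : ε ≤ 1 / 4) (hN : 0 < N)
    (ht : 0 < t) (hs0 : 0 ≤ s) (hq : 0 ≤ q)
    (h1 : (l + 2 * ε * N) * N < T * (s + 1) ^ 2) (h2 : T ≤ q * t) (h3 : s * t ≤ N)
    (h4 : a ≤ ε / 8 * (s + 1) + 1) (h5 : 32 ≤ ε * (s + 1)) (h6 : l + 2 * ε * N ≤ N)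
    (hl : 0 < l) : l ≤ q * (s - 6 * a) := by
  set Q := l + 2 * ε * N with hQ
  have hQ0 : 0 < Q := by positivity
  have hu : 0 < s + 1 := by positivity
  set x := 1 / (s + 1) with hx
  have hx0 : 0 < x := by positivity
  have hux : (s + 1) * x = 1 := by rw [hx]; field_simp
  have hx1 : x ≤ ε / 32 := by
    rw [hx, div_le_div_iff₀ hu (by norm_num)]
    linarith
  -- q (s+1) ≥ Q (1 - x)
  have e1 : Q * s * t ≤ q * t * (s + 1) ^ 2 := by
    calc Q * s * t = Q * (s * t) := by ring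
      _ ≤ Q * N := by gcongr
      _ ≤ T * (s + 1) ^ 2 := h1.le
      _ ≤ q * t * (s + 1) ^ 2 := by gcongr
  have e2 : Q * s ≤ q * (s + 1) ^ 2 := by
    have : Q * s * t ≤ q * (s + 1) ^ 2 * t := by linarith
    exact le_of_mul_le_mul_right this ht
  have e3 : Q * (1 - x) ≤ q * (s + 1) := by
    have h : Q * s * x ≤ q * (s + 1) ^ 2 * x := by gcongr
    have h' : q * (s + 1) ^ 2 * x = q * (s + 1) * ((s + 1) * x) := by ring
    rw [h', hux, mul_one] at h
    have h'' : Q * s * x = Q * ((s + 1) * x - x) := by ring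
    rw [h'', hux] at h
    exact h
  have e4 : (s + 1) * (1 - 3 * ε / 4 - 7 * x) ≤ s - 6 * a := by
    have : (s + 1) * (1 - 3 * ε / 4 - 7 * x) = (s + 1) * (1 - 3 * ε / 4) - 7 * ((s + 1) * x) := by
      ring
    rw [this, hux]
    nlinarith
  have hpos : 0 ≤ 1 - 3 * ε / 4 - 7 * x := by linarith
  calc l ≤ Q - ε * Q := by
        have : ε * Q ≤ ε * N := by gcongr
        have h2 : 0 ≤ ε * N := by positivity
        rw [hQ] at this ⊢
        linarith
    _ = Q * (1 - ε) := by ring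
    _ ≤ Q * ((1 - x) * (1 - 3 * ε / 4 - 7 * x)) := by
        have : 1 - ε ≤ (1 - x) * (1 - 3 * ε / 4 - 7 * x) := by nlinarith
        gcongr
    _ = Q * (1 - x) * (1 - 3 * ε / 4 - 7 * x) := by ring
    _ ≤ q * (s + 1) * (1 - 3 * ε / 4 - 7 * x) := by gcongr
    _ = q * ((s + 1) * (1 - 3 * ε / 4 - 7 * x)) := by ring
    _ ≤ q * (s - 6 * a) := by gcongr

/-- If every two disjoint sets spanning many edges of a dense graph `H` are joined by an edge of
`Γ`, then `Γ` has a cycle almost as long as the average degree of `H`. -/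
theorem dense_cycle (δ : ℝ) (hδ : 0 < δ) (hδ1 : δ ≤ 1) :
    ∃ γ : ℝ, 0 < γ ∧ ∃ N0 : ℕ, ∀ (α : Type u) [Fintype α] [DecidableEq α] (H Γ : SimpleGraph α)
      [DecidableRel H.Adj], N0 ≤ Fintype.card α →
      (∀ A B : Finset α, Disjoint A B → γ * (Fintype.card α : ℝ) ^ 2 ≤ #(H.interedges A B) →
        ∃ x ∈ A, ∃ y ∈ B, Γ.Adj x y) →
      ∀ l : ℝ, 0 < l → (l + δ * Fintype.card α) * Fintype.card α ≤ 2 * #H.edgeFinset →
      ∃ (v : α) (c : Γ.Walk v v), c.IsCycle ∧ l ≤ c.length := by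
  classical
  obtain ⟨ε, hεdef⟩ : ∃ ε : ℝ, ε = δ / 4 := ⟨_, rfl⟩
  have hε : 0 < ε := by rw [hεdef]; positivity
  have hε1 : ε ≤ 1 / 4 := by rw [hεdef]; linarith
  set L := ⌈4 / ε⌉₊ with hL
  set K := SzemerediRegularity.bound (ε / 8) L with hK
  have hLpos : 0 < L := Nat.ceil_pos.2 (by positivity)
  have hK0 : 0 < K := SzemerediRegularity.bound_pos (ε := ε / 8) (l := L)
  refine ⟨(ε / 8) ^ 3 / K ^ 2, by positivity, max (⌈32 * K / ε⌉₊) L, ?_⟩
  intro α _ _ H Γ _ hN hjoin l hl hlen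
  set N := Fintype.card α with hNdef
  have hN1 : (32 * K / ε : ℝ) ≤ N := (Nat.le_ceil _).trans
    (Nat.cast_le.2 ((le_max_left _ _).trans hN))
  have hN2 : L ≤ N := (le_max_right _ _).trans hN
  have hNpos : 0 < N := by omega
  have hne : Nonempty α := Fintype.card_pos_iff.1 hNpos
  obtain ⟨P, hP1, hP2, hP3, hP4⟩ := szemeredi_regularity H (ε := ε / 8) (l := L) (by positivity) hN2
  have hP2' : 4 / ε ≤ #P.parts := (Nat.le_ceil _).trans (Nat.cast_le.2 hP2)
  have hred := SimpleGraph.regularityReduced_edges_card_aux (G := H) hε hP1 hP4 hP2'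
  set t := #P.parts with ht
  have htpos : 0 < t := by omega
  set s := N / t with hs
  -- reduced graph
  let R : SimpleGraph {U // U ∈ P.parts} :=
    { Adj := fun U V => U ≠ V ∧ H.IsUniform (ε / 8) U.1 V.1 ∧
        ε / 4 ≤ (H.edgeDensity U.1 V.1 : ℝ)
      symm := ⟨fun U V h => ⟨h.1.symm, h.2.1.symm, by
        rw [SimpleGraph.edgeDensity_comm]; exact h.2.2⟩⟩
      loopless := ⟨fun U h => h.1 rfl⟩ }
  have hcardι : Fintype.card {U // U ∈ P.parts} = t := by simp [ht]
  have hsize : ∀ U ∈ P.parts, s ≤ #U ∧ #U ≤ s + 1 := by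
    intro U hU
    have h1 := hP1.average_le_card_part hU
    have h2 := hP1.card_part_le_average_add_one hU
    rw [Finset.card_univ] at h1 h2
    exact ⟨h1, h2⟩
  set T := tw R univ with hT
  -- edges of the reduced graph
  have hTe : (2 * #(H.regularityReduced P (ε / 8) (ε / 4)).edgeFinset : ℕ) ≤ T * (s + 1) ^ 2 := by
    rw [SimpleGraph.two_mul_card_edgeFinset]
    have hsub : (univ.filter fun xy : α × α =>
          (H.regularityReduced P (ε / 8) (ε / 4)).Adj xy.1 xy.2) ⊆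
        (univ.filter fun UV : {U // U ∈ P.parts} × {U // U ∈ P.parts} =>
          R.Adj UV.1 UV.2).biUnion fun UV => UV.1.1 ×ˢ UV.2.1 := by
      rintro ⟨x, y⟩ hxy
      rw [Finset.mem_filter] at hxy
      obtain ⟨-, -, U, hU, V, hV, hxU, hyV, hUV, hu, hd⟩ := hxy
      rw [Finset.mem_biUnion]
      refine ⟨(⟨U, hU⟩, ⟨V, hV⟩), ?_, ?_⟩
      · rw [Finset.mem_filter]
        refine ⟨Finset.mem_univ _, ?_, hu, hd⟩
        intro h
        exact hUV (congrArg Subtype.val h)
      · rw [Finset.mem_product]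
        exact ⟨hxU, hyV⟩
    have hTcard : T = #(univ.filter fun UV : {U // U ∈ P.parts} × {U // U ∈ P.parts} =>
          R.Adj UV.1 UV.2) := by
      rw [hT, tw, Finset.card_filter, ← Finset.univ_product_univ, Finset.sum_product]
      rfl
    calc _ ≤ #((univ.filter fun UV : {U // U ∈ P.parts} × {U // U ∈ P.parts} =>
          R.Adj UV.1 UV.2).biUnion fun UV => UV.1.1 ×ˢ UV.2.1) := Finset.card_le_card hsub
      _ ≤ ∑ UV ∈ (univ.filter fun UV : {U // U ∈ P.parts} × {U // U ∈ P.parts} =>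
          R.Adj UV.1 UV.2), #(UV.1.1 ×ˢ UV.2.1) := Finset.card_biUnion_le
      _ ≤ ∑ UV ∈ (univ.filter fun UV : {U // U ∈ P.parts} × {U // U ∈ P.parts} =>
          R.Adj UV.1 UV.2), (s + 1) ^ 2 := by
            apply Finset.sum_le_sum
            intro UV _
            rw [Finset.card_product, sq]
            exact Nat.mul_le_mul (hsize _ UV.1.2).2 (hsize _ UV.2.2).2
      _ = T * (s + 1) ^ 2 := by
            rw [Finset.sum_const, smul_eq_mul, hTcard]
  -- real versions
  have hNr : (0 : ℝ) < N := by exact_mod_cast hNpos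
  have htr : (0 : ℝ) < t := by exact_mod_cast htpos
  have hKr : (0 : ℝ) < K := by exact_mod_cast hK0
  have hst : (s : ℝ) * t ≤ N := by
    have : s * t ≤ N := Nat.div_mul_le_self _ _
    exact_mod_cast this
  have hst' : (N : ℝ) < (s + 1) * t := by
    have : N < (s + 1) * t := by
      have := Nat.lt_div_mul_add (a := N) htpos
      rw [← hs] at this
      rw [add_mul, one_mul]
      exact this
    exact_mod_cast this
  have htK : (t : ℝ) ≤ K := by exact_mod_cast hP3
  have h1 : (l + 2 * ε * N) * N < T * (s + 1) ^ 2 := by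
    have e1 : (2 * #(H.regularityReduced P (ε / 8) (ε / 4)).edgeFinset : ℝ) ≤
        T * (s + 1) ^ 2 := by exact_mod_cast hTe
    have e2 : 2 * (#H.edgeFinset - #(H.regularityReduced P (ε / 8) (ε / 4)).edgeFinset : ℝ)
      < 2 * ε * (N : ℝ) ^ 2 := by
      have := hred
      push_cast at this
      exact this
    have e3 : (l + δ * N) * N = (l + 2 * ε * N) * N + 2 * ε * (N : ℝ) ^ 2 := by
      rw [hεdef]; ring
    linarith
  have hle : 2 * (#H.edgeFinset : ℝ) ≤ (N : ℝ) ^ 2 := by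
    have h := SimpleGraph.card_edgeFinset_le_card_choose_two (G := H)
    rw [← hNdef, Nat.choose_two_right] at h
    have h2 : 2 * #H.edgeFinset ≤ N * (N - 1) := by
      have := Nat.div_mul_le_self (N * (N - 1)) 2
      omega
    have h3 : N * (N - 1) ≤ N * N := Nat.mul_le_mul_left _ (by omega)
    have h4 : 2 * #H.edgeFinset ≤ N ^ 2 := by rw [sq]; omega
    exact_mod_cast h4
  have h6 : l + 2 * ε * N ≤ N := by
    have e3 : (l + δ * N) * N = (l + 2 * ε * N) * N + 2 * ε * (N : ℝ) ^ 2 := by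
      rw [hεdef]; ring
    have e4 : (l + 2 * ε * N) * N ≤ N * N := by
      have : 0 ≤ 2 * ε * (N : ℝ) ^ 2 := by positivity
      nlinarith
    exact le_of_mul_le_mul_right e4 hNr
  have h5 : 32 ≤ ε * (s + 1) := by
    have e1 : (N : ℝ) ≤ (s + 1) * K := hst'.le.trans (by gcongr)
    have e2 : 32 * K / ε ≤ (s + 1) * K := hN1.trans e1
    rw [div_le_iff₀ hε] at e2
    have e3 : 32 * (K : ℝ) ≤ ε * (s + 1) * K := by linarith
    exact le_of_mul_le_mul_right e3 hKr
  have hTpos : 0 < T := by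
    by_contra h
    have : T = 0 := by omega
    rw [this] at h1
    have h2 : 0 ≤ (l + 2 * ε * N) * N := by positivity
    simp at h1
    linarith
  -- the path
  obtain ⟨q, hq⟩ : ∃ q, q = (T + t - 1) / t := ⟨_, rfl⟩
  have hq1 : T ≤ q * t := by
    have := Nat.lt_div_mul_add (a := T + t - 1) htpos
    rw [← hq] at this
    omega
  have hq2 : q * t < T + t := by
    have := Nat.div_mul_le_self (T + t - 1) t
    rw [← hq] at this
    omega
  have hqpos : 0 < q := by
    rcases Nat.eq_zero_or_pos q with h | h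
    · rw [h] at hq1
      omega
    · exact h
  obtain ⟨p, hp1, hp2, hp3⟩ := exists_path R q (by rw [hcardι]; exact hq2)
  obtain ⟨n, hn⟩ : ∃ n, n + 1 = (q + 1) / 2 := ⟨(q + 1) / 2 - 1, by omega⟩
  have hn1 : q ≤ 2 * (n + 1) := by omega
  have hn2 : 2 * (n + 1) ≤ q + 1 := by omega
  obtain ⟨a, ha⟩ : ∃ a, a = ⌈ε / 8 * (s + 1)⌉₊ := ⟨_, rfl⟩
  have ha0 : 0 < a := by
    rw [ha]
    exact Nat.ceil_pos.2 (by positivity)
  have ha1 : (a : ℝ) ≤ ε / 8 * (s + 1) + 1 := by
    rw [ha]
    exact (Nat.ceil_lt_add_one (by positivity)).le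
  have ha2 : ε / 8 * (s + 1) ≤ a := by
    rw [ha]
    exact Nat.le_ceil _
  have has : 6 * a + 2 ≤ s := by
    have h : (6 * a + 2 : ℝ) ≤ s := by nlinarith
    exact_mod_cast h
  let Xs : List (Finset α) := (p.take (2 * (n + 1))).map Subtype.val
  have hXl : Xs.length = 2 * (n + 1) := by
    simp only [Xs, List.length_map, List.length_take, hp3]
    omega
  have hXpw : Xs.Pairwise Disjoint := by
    simp only [Xs]
    rw [List.pairwise_map]
    have h : (p.take (2 * (n + 1))).Nodup := hp2.sublist (List.take_sublist _ _)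
    apply List.Pairwise.imp _ h
    intro U V hUV
    exact P.disjoint U.2 V.2 (fun h => hUV (Subtype.ext h))
  have hJ : ∀ U V : {U // U ∈ P.parts}, R.Adj U V → Joined Γ a U.1 V.1 := by
    intro U V hUV A hA B hB hAa hBa
    obtain ⟨hne, hu, hd⟩ := hUV
    have hAr : ε / 8 * (s + 1) ≤ #A := ha2.trans (by exact_mod_cast hAa)
    have hBr : ε / 8 * (s + 1) ≤ #B := ha2.trans (by exact_mod_cast hBa)
    have hUc : (#U.1 : ℝ) ≤ s + 1 := by exact_mod_cast (hsize _ U.2).2
    have hVc : (#V.1 : ℝ) ≤ s + 1 := by exact_mod_cast (hsize _ V.2).2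
    have hdist := hu hA hB (by
      calc (#U.1 : ℝ) * (ε / 8) ≤ (s + 1) * (ε / 8) := by gcongr
        _ ≤ #A := by linarith) (by
      calc (#V.1 : ℝ) * (ε / 8) ≤ (s + 1) * (ε / 8) := by gcongr
        _ ≤ #B := by linarith)
    have hAB : ε / 8 ≤ (H.edgeDensity A B : ℝ) := by
      have := (abs_lt.1 hdist).1
      linarith
    have hdisj : Disjoint A B := by
      have : Disjoint U.1 V.1 := P.disjoint U.2 V.2 (fun h => hne (Subtype.ext h))
      exact Finset.disjoint_of_subset_left hA (Finset.disjoint_of_subset_right hB this)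
    apply hjoin A B hdisj
    have hApos : (0 : ℝ) < #A := lt_of_lt_of_le (by positivity) hAr
    have hBpos : (0 : ℝ) < #B := lt_of_lt_of_le (by positivity) hBr
    have hdens : (H.edgeDensity A B : ℝ) = #(H.interedges A B) / (#A * #B) := by
      rw [SimpleGraph.edgeDensity_def]
      push_cast
      rfl
    rw [hdens, le_div_iff₀ (by positivity)] at hAB
    calc (ε / 8) ^ 3 / K ^ 2 * (N : ℝ) ^ 2 ≤ (ε / 8) ^ 3 / K ^ 2 * ((s + 1) * K) ^ 2 := by
          gcongr
          exact hst'.le.trans (by gcongr)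
      _ = ε / 8 * ((ε / 8 * (s + 1)) * (ε / 8 * (s + 1))) := by
          field_simp
      _ ≤ ε / 8 * (#A * #B) := by gcongr
      _ ≤ _ := hAB
  have hXch : Xs.IsChain (Joined Γ a) := by
    simp only [Xs]
    rw [List.isChain_map]
    exact (hp1.take _).imp fun U V h => hJ U V h
  obtain ⟨v, c, hc1, hc2⟩ := cluster_cycle Γ a s n ha0 has Xs hXl hXpw hXch (by
    intro X hX
    simp only [Xs, List.mem_map] at hX
    obtain ⟨U, -, rfl⟩ := hX
    exact (hsize _ U.2).1)
  refine ⟨v, c, hc1, ?_⟩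
  have hfin := dense_arith ε l N t T s q a hε hε1 hNr htr (by positivity) (by positivity) h1
    (by exact_mod_cast hq1) hst ha1 h5 h6 hl
  have h7 : q * (s - 6 * a) ≤ c.length := (Nat.mul_le_mul_right _ hn1).trans hc2
  have h8 : ((q * (s - 6 * a) : ℕ) : ℝ) ≤ c.length := by exact_mod_cast h7
  have h9 : ((q * (s - 6 * a) : ℕ) : ℝ) = q * ((s : ℝ) - 6 * a) := by
    rw [Nat.cast_mul, Nat.cast_sub (by omega)]
    push_cast
    ring
  linarith

end Pool.Agent.Helper23.LC
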