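import Mathlib

namespace Pool.Agent.Helper23.LC

open Finset

section Prob

variable {β : Type*}

/-- The expectation of `f` of the random subset of `R` keeping every element independently with
probability `p`. -/
noncomputable def EE (R : Finset β) (p : ℝ) (f : Finset β → ℝ) : ℝ :=
  ∑ S ∈ R.powerset, p ^ #S * (1 - p) ^ (#R - #S) * f S

theorem EE_empty (p : ℝ) (f : Finset β → ℝ) : EE ∅ p f = f ∅ := by
  simp [EE]

theorem EE_mono (R : Finset β) (p : ℝ) (h0 : 0 ≤ p) (h1 : p ≤ 1) (f g : Finset β → ℝ)
    (h : ∀ S ⊆ R, f S ≤ g S) : EE R p f ≤ EE R p g := by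
  unfold EE
  apply Finset.sum_le_sum
  intro S hS
  have h2 : 0 ≤ 1 - p := by linarith
  have := h S (Finset.mem_powerset.1 hS)
  gcongr

theorem EE_add (R : Finset β) (p : ℝ) (f g : Finset β → ℝ) :
    EE R p (fun S => f S + g S) = EE R p f + EE R p g := by
  unfold EE
  rw [← Finset.sum_add_distrib]
  exact Finset.sum_congr rfl fun S _ => by ring

theorem EE_mul (R : Finset β) (p c : ℝ) (f : Finset β → ℝ) :
    EE R p (fun S => c * f S) = c * EE R p f := by
  unfold EE
  rw [Finset.mul_sum]
  exact Finset.sum_congr rfl fun S _ => by ring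

theorem EE_sum {γ : Type*} (I : Finset γ) (R : Finset β) (p : ℝ) (f : γ → Finset β → ℝ) :
    EE R p (fun S => ∑ i ∈ I, f i S) = ∑ i ∈ I, EE R p (f i) := by
  unfold EE
  rw [Finset.sum_comm]
  exact Finset.sum_congr rfl fun S _ => by rw [Finset.mul_sum]

theorem EE_nonneg (R : Finset β) (p : ℝ) (h0 : 0 ≤ p) (h1 : p ≤ 1) (f : Finset β → ℝ)
    (h : ∀ S ⊆ R, 0 ≤ f S) : 0 ≤ EE R p f := by
  have := EE_mono R p h0 h1 (fun _ => 0) f h
  simpa [EE] using this

variable [DecidableEq β]

theorem EE_insert (R : Finset β) (e : β) (he : e ∉ R) (p : ℝ) (f : Finset β → ℝ) :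
    EE (insert e R) p f = p * EE R p (fun S => f (insert e S)) + (1 - p) * EE R p f := by
  unfold EE
  rw [Finset.sum_powerset_insert he, add_comm, Finset.mul_sum, Finset.mul_sum]
  congr 1
  · apply Finset.sum_congr rfl
    intro S hS
    have hS' := Finset.mem_powerset.1 hS
    rw [Finset.card_insert_of_notMem (fun h => he (hS' h)), Finset.card_insert_of_notMem he,
      Nat.add_sub_add_right, pow_succ]
    ring
  · apply Finset.sum_congr rfl
    intro S hS
    have hS' := Finset.card_le_card (Finset.mem_powerset.1 hS)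
    rw [Finset.card_insert_of_notMem he, Nat.succ_sub hS', pow_succ]
    ring

theorem EE_const (R : Finset β) (p c : ℝ) : EE R p (fun _ => c) = c := by
  induction R using Finset.induction_on with
  | empty => exact EE_empty _ _
  | insert e R he ih =>
    rw [EE_insert R e he, ih]
    ring

theorem EE_disjoint (R F : Finset β) (p : ℝ) :
    EE R p (fun S => if Disjoint S F then 1 else 0) = (1 - p) ^ #(R ∩ F) := by
  induction R using Finset.induction_on with
  | empty => simp [EE_empty]
  | insert e R he ih =>
    rw [EE_insert R e he, ih]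
    by_cases heF : e ∈ F
    · have h1 : (fun S : Finset β => if Disjoint (insert e S) F then (1 : ℝ) else 0) =
          fun _ => 0 := by
        funext S
        rw [if_neg]
        rw [Finset.disjoint_insert_left]
        exact fun h => h.1 heF
      rw [h1, EE_const, Finset.insert_inter_of_mem heF, Finset.card_insert_of_notMem
        (fun h => he (Finset.mem_inter.1 h).1), pow_succ]
      ring
    · have h1 : (fun S : Finset β => if Disjoint (insert e S) F then (1 : ℝ) else 0) =
          fun S => if Disjoint S F then (1 : ℝ) else 0 := by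
        funext S
        simp only [Finset.disjoint_insert_left, heF, not_false_eq_true, true_and]
      rw [h1, ih, Finset.insert_inter_of_notMem heF]
      ring

theorem EE_two_round (R : Finset β) (p p1 p2 : ℝ) (h : 1 - p = (1 - p1) * (1 - p2)) :
    ∀ f : Finset β → ℝ, EE R p f = EE R p1 (fun S1 => EE R p2 (fun S2 => f (S1 ∪ S2))) := by
  induction R using Finset.induction_on with
  | empty =>
    intro f
    simp [EE_empty]
  | insert e R he ih =>
    intro f
    rw [EE_insert R e he, EE_insert R e he]
    simp only [EE_insert R e he]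
    have e1 : ∀ S1 : Finset β, (fun S2 : Finset β => f (insert e S1 ∪ insert e S2)) =
        fun S2 => f (insert e (S1 ∪ S2)) := by
      intro S1
      funext S2
      rw [Finset.insert_union, Finset.union_insert, Finset.insert_idem]
    have e2 : ∀ S1 : Finset β, (fun S2 : Finset β => f (insert e S1 ∪ S2)) =
        fun S2 => f (insert e (S1 ∪ S2)) := by
      intro S1
      funext S2
      rw [Finset.insert_union]
    have e3 : ∀ S1 : Finset β, (fun S2 : Finset β => f (S1 ∪ insert e S2)) =
        fun S2 => f (insert e (S1 ∪ S2)) := by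
      intro S1
      funext S2
      rw [Finset.union_insert]
    simp only [e1, e2, e3, EE_add, EE_mul]
    rw [ih f, ih (fun S => f (insert e S))]
    have hp : p = 1 - (1 - p1) * (1 - p2) := by linarith
    rw [hp]
    ring

/-- union bound -/
theorem EE_exists_le {γ : Type*} (I : Finset γ) (R : Finset β) (p : ℝ) (h0 : 0 ≤ p) (h1 : p ≤ 1)
    (F : γ → Finset β) (f : Finset β → ℝ)
    (hf : ∀ S ⊆ R, (∀ i ∈ I, ¬ Disjoint S (F i)) → f S ≤ 0) (hf1 : ∀ S ⊆ R, f S ≤ 1) :
    EE R p f ≤ ∑ i ∈ I, (1 - p) ^ #(R ∩ F i) := by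
  have h : ∀ i ∈ I, (1 - p) ^ #(R ∩ F i) =
      EE R p (fun S => if Disjoint S (F i) then 1 else 0) := fun i _ => (EE_disjoint R (F i) p).symm
  rw [Finset.sum_congr rfl h, ← EE_sum]
  apply EE_mono R p h0 h1
  intro S hS
  by_cases hall : ∀ i ∈ I, ¬ Disjoint S (F i)
  · refine (hf S hS hall).trans (Finset.sum_nonneg fun i _ => ?_)
    split_ifs <;> simp
  · push Not at hall
    obtain ⟨i, hi, hd⟩ := hall
    refine (hf1 S hS).trans ?_
    calc (1 : ℝ) = if Disjoint S (F i) then 1 else 0 := by rw [if_pos hd]
      _ ≤ _ := Finset.single_le_sum (f := fun i => if Disjoint S (F i) then (1 : ℝ) else 0)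
        (fun j _ => by split_ifs <;> simp) hi

end Prob

end Pool.Agent.Helper23.LC
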