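import Mathlib
import Pool.Agent.Helper23.LC.Prob

namespace Pool.Agent.Helper23.LC

open Finset

section Forest

variable {V : Type*} [DecidableEq V]

/-- `e` joins a member of `U` to one of its ancestors -/
def Vert (anc : V → List V) (U : Finset V) (e : Sym2 V) : Prop :=
  ∃ x y, e = s(x, y) ∧ y ∈ U ∧ x ∈ anc y

open Classical in
/-- The search from the current state (stack `stk`, untouched set `U`, edges `F`) can be completed
to a rooted forest inside `Γ` with fewer than `m` edges of `F` not vertical. -/
def Good (Γ : Finset (Sym2 V)) (stk : List V) (U : Finset V) (F : Finset (Sym2 V)) (m : ℕ) : Prop :=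
  ∃ anc : V → List V, (∀ u ∈ U, anc u = [] ∨ ∃ w l, anc u = w :: l ∧ s(u, w) ∈ Γ ∧
    ((w ∈ U ∧ anc w = l) ∨ ∃ l1, stk = l1 ++ w :: l)) ∧
    #(F.filter fun e => ¬ Vert anc U e) < m

/-- the edges of `F` are proper and join the untouched set to itself or the stack -/
def Valid (F : Finset (Sym2 V)) (stk : List V) (U : Finset V) : Prop :=
  ∀ e ∈ F, ¬ e.IsDiag ∧ ∃ x y, e = s(x, y) ∧ y ∈ U ∧ (x ∈ U ∨ x ∈ stk)

open Classical in
theorem good_push (Γ : Finset (Sym2 V)) (rest : List V) (v u : V) (U : Finset V)
    (F : Finset (Sym2 V)) (m : ℕ) (hu : u ∈ U) (hF : Valid F (v :: rest) U)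
    (h : Good Γ (u :: v :: rest) (U.erase u)
      ((F.erase s(v, u)).filter fun e => ∃ x ∈ e, x ∈ U.erase u) m) :
    Good (insert s(v, u) Γ) (v :: rest) U F m := by
  obtain ⟨anc, h1, h2⟩ := h
  refine ⟨Function.update anc u (v :: rest), ?_, ?_⟩
  · intro x hx
    by_cases hxu : x = u
    · subst hxu
      right
      refine ⟨v, rest, by simp, ?_, Or.inr ⟨[], by simp⟩⟩
      rw [Sym2.eq_swap]
      exact Finset.mem_insert_self _ _
    · rw [Function.update_of_ne hxu]
      rcases h1 x (Finset.mem_erase.2 ⟨hxu, hx⟩) with h | ⟨w, l, e1, e2, e3⟩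
      · exact Or.inl h
      · right
        refine ⟨w, l, e1, Finset.mem_insert_of_mem e2, ?_⟩
        rcases e3 with ⟨e3, e4⟩ | ⟨l1, e3⟩
        · left
          rw [Finset.mem_erase] at e3
          exact ⟨e3.2, by rw [Function.update_of_ne e3.1]; exact e4⟩
        · rcases l1 with _ | ⟨z, l1⟩
          · left
            simp only [List.nil_append, List.cons.injEq] at e3
            obtain ⟨rfl, rfl⟩ := e3
            exact ⟨hu, by simp⟩
          · right
            simp only [List.cons_append, List.cons.injEq] at e3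
            exact ⟨l1, by rw [e3.2]⟩
  · refine lt_of_le_of_lt (Finset.card_le_card ?_) h2
    intro e he
    rw [Finset.mem_filter] at he ⊢
    obtain ⟨heF, hev⟩ := he
    have hne : e ≠ s(v, u) := by
      rintro rfl
      exact hev ⟨v, u, rfl, hu, by simp⟩
    refine ⟨?_, ?_⟩
    · rw [Finset.mem_filter, Finset.mem_erase]
      refine ⟨⟨hne, heF⟩, ?_⟩
      by_contra hcon
      push Not at hcon
      obtain ⟨hd, x, y, rfl, hy, hx⟩ := hF e heF
      have hyu : y = u := by
        by_contra hyu
        exact hcon y (by simp) (Finset.mem_erase.2 ⟨hyu, hy⟩)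
      subst hyu
      rcases hx with hx | hx
      · have hxu : x = y := by
          by_contra hxu
          exact hcon x (by simp) (Finset.mem_erase.2 ⟨hxu, hx⟩)
        subst hxu
        exact hd (by simp)
      · exact hev ⟨x, y, rfl, hy, by simpa using hx⟩
    · rintro ⟨x, y, rfl, hy, hx⟩
      rw [Finset.mem_erase] at hy
      exact hev ⟨x, y, rfl, hy.2, by rw [Function.update_of_ne hy.1]; exact hx⟩

open Classical in
theorem good_root (Γ : Finset (Sym2 V)) (u : V) (U : Finset V)
    (F : Finset (Sym2 V)) (m : ℕ) (hu : u ∈ U) (hF : Valid F [] U)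
    (h : Good Γ [u] (U.erase u) (F.filter fun e => ∃ x ∈ e, x ∈ U.erase u) m) :
    Good Γ [] U F m := by
  obtain ⟨anc, h1, h2⟩ := h
  refine ⟨Function.update anc u [], ?_, ?_⟩
  · intro x hx
    by_cases hxu : x = u
    · subst hxu
      left
      simp
    · rw [Function.update_of_ne hxu]
      rcases h1 x (Finset.mem_erase.2 ⟨hxu, hx⟩) with h | ⟨w, l, e1, e2, e3⟩
      · exact Or.inl h
      · right
        refine ⟨w, l, e1, e2, ?_⟩
        left
        rcases e3 with ⟨e3, e4⟩ | ⟨l1, e3⟩
        · rw [Finset.mem_erase] at e3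
          exact ⟨e3.2, by rw [Function.update_of_ne e3.1]; exact e4⟩
        · rcases l1 with _ | ⟨z, l1⟩
          · simp only [List.nil_append, List.cons.injEq] at e3
            obtain ⟨rfl, rfl⟩ := e3
            exact ⟨hu, by simp⟩
          · simp at e3
  · refine lt_of_le_of_lt (Finset.card_le_card ?_) h2
    intro e he
    rw [Finset.mem_filter] at he ⊢
    obtain ⟨heF, hev⟩ := he
    refine ⟨?_, ?_⟩
    · rw [Finset.mem_filter]
      refine ⟨heF, ?_⟩
      by_contra hcon
      push Not at hcon
      obtain ⟨hd, x, y, rfl, hy, hx⟩ := hF e heF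
      have hyu : y = u := by
        by_contra hyu
        exact hcon y (by simp) (Finset.mem_erase.2 ⟨hyu, hy⟩)
      subst hyu
      rcases hx with hx | hx
      · have hxu : x = y := by
          by_contra hxu
          exact hcon x (by simp) (Finset.mem_erase.2 ⟨hxu, hx⟩)
        subst hxu
        exact hd (by simp)
      · simp at hx
    · rintro ⟨x, y, rfl, hy, hx⟩
      rw [Finset.mem_erase] at hy
      exact hev ⟨x, y, rfl, hy.2, by rw [Function.update_of_ne hy.1]; exact hx⟩

theorem good_pop (Γ : Finset (Sym2 V)) (v : V) (rest : List V) (U : Finset V)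
    (F : Finset (Sym2 V)) (m : ℕ) (h : Good Γ rest U F m) : Good Γ (v :: rest) U F m := by
  obtain ⟨anc, h1, h2⟩ := h
  refine ⟨anc, ?_, h2⟩
  intro x hx
  rcases h1 x hx with h | ⟨w, l, e1, e2, e3⟩
  · exact Or.inl h
  · right
    refine ⟨w, l, e1, e2, ?_⟩
    rcases e3 with e3 | ⟨l1, e3⟩
    · exact Or.inl e3
    · exact Or.inr ⟨v :: l1, by rw [e3, List.cons_append]⟩

theorem good_absent (Γ : Finset (Sym2 V)) (stk : List V) (U : Finset V)
    (F : Finset (Sym2 V)) (e0 : Sym2 V) (m : ℕ) (h : Good Γ stk U (F.erase e0) m) :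
    Good Γ stk U F (m + 1) := by
  classical
  obtain ⟨anc, h1, h2⟩ := h
  refine ⟨anc, h1, ?_⟩
  have h3 : (F.filter fun e => ¬ Vert anc U e) ⊆
      insert e0 ((F.erase e0).filter fun e => ¬ Vert anc U e) := by
    intro e he
    rw [Finset.mem_filter] at he
    rw [Finset.mem_insert]
    by_cases hee : e = e0
    · exact Or.inl hee
    · right
      rw [Finset.mem_filter, Finset.mem_erase]
      exact ⟨⟨hee, he.1⟩, he.2⟩
  have h4 := (Finset.card_le_card h3).trans (Finset.card_insert_le _ _)
  have h5 : #((F.erase e0).filter fun e => ¬ Vert anc U e) < m := by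
    convert! h2
  have h6 : #(F.filter fun e => ¬ Vert anc U e) < m + 1 := by omega
  convert! h6

theorem valid_push (v u : V) (rest : List V) (U : Finset V) (F : Finset (Sym2 V))
    (hF : Valid F (v :: rest) U) (F' : Finset (Sym2 V)) (hF' : F' ⊆ F)
    (h : ∀ e ∈ F', ∃ x ∈ e, x ∈ U.erase u) :
    Valid F' (u :: v :: rest) (U.erase u) := by
  intro e he
  obtain ⟨hd, x, y, rfl, hy, hx⟩ := hF e (hF' he)
  refine ⟨hd, ?_⟩
  obtain ⟨z, hz, hzU⟩ := h _ he
  rw [Sym2.mem_iff] at hz
  rcases hz with rfl | rfl
  · refine ⟨y, z, Sym2.eq_swap, hzU, ?_⟩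
    by_cases hyu : y = u
    · right; simp [hyu]
    · left; exact Finset.mem_erase.2 ⟨hyu, hy⟩
  · refine ⟨x, z, rfl, hzU, ?_⟩
    rcases hx with hx | hx
    · by_cases hxu : x = u
      · right; simp [hxu]
      · left; exact Finset.mem_erase.2 ⟨hxu, hx⟩
    · right
      exact List.mem_cons_of_mem _ hx

theorem valid_root (u : V) (U : Finset V) (F : Finset (Sym2 V))
    (hF : Valid F [] U) (F' : Finset (Sym2 V)) (hF' : F' ⊆ F)
    (h : ∀ e ∈ F', ∃ x ∈ e, x ∈ U.erase u) :
    Valid F' [u] (U.erase u) := by
  intro e he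
  obtain ⟨hd, x, y, rfl, hy, hx⟩ := hF e (hF' he)
  refine ⟨hd, ?_⟩
  obtain ⟨z, hz, hzU⟩ := h _ he
  rw [Sym2.mem_iff] at hz
  rcases hz with rfl | rfl
  · refine ⟨y, z, Sym2.eq_swap, hzU, ?_⟩
    by_cases hyu : y = u
    · right; simp [hyu]
    · left; exact Finset.mem_erase.2 ⟨hyu, hy⟩
  · refine ⟨x, z, rfl, hzU, ?_⟩
    rcases hx with hx | hx
    · by_cases hxu : x = u
      · right; simp [hxu]
      · left; exact Finset.mem_erase.2 ⟨hxu, hx⟩
    · simp at hx

open Classical in
/-- failure indicator -/
noncomputable def bad (stk : List V) (U : Finset V) (F : Finset (Sym2 V)) (m : ℕ)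
    (Γ : Finset (Sym2 V)) : ℝ := if Good Γ stk U F m then 0 else 1

theorem bad_le_one (stk : List V) (U : Finset V) (F : Finset (Sym2 V)) (m : ℕ)
    (Γ : Finset (Sym2 V)) : bad stk U F m Γ ≤ 1 := by
  unfold bad
  split_ifs <;> simp

theorem bad_le_bad {stk stk' : List V} {U U' : Finset V} {F F' : Finset (Sym2 V)} {m m' : ℕ}
    {Γ Γ' : Finset (Sym2 V)} (h : Good Γ' stk' U' F' m' → Good Γ stk U F m) :
    bad stk U F m Γ ≤ bad stk' U' F' m' Γ' := by
  unfold bad
  by_cases h1 : Good Γ' stk' U' F' m'
  · rw [if_pos h1, if_pos (h h1)]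
  · rw [if_neg h1]
    split_ifs <;> simp

theorem forest_step (p : ℝ) (hp0 : 0 ≤ p) (hp1 : p ≤ 1) :
    ∀ (N : ℕ) (stk : List V) (U : Finset V) (F R : Finset (Sym2 V)) (m : ℕ),
      2 * #U + stk.length + #R ≤ N → F ⊆ R → Valid F stk U →
      EE R p (bad stk U F m) ≤ 2 ^ #U * (1 - p / 2) ^ m := by
  have hβ : 0 ≤ 1 - p / 2 := by linarith
  intro N
  induction N with
  | zero =>
    intro stk U F R m hN hFR hF
    have hU : U = ∅ := by
      rw [← Finset.card_eq_zero]; omega
    have hR : R = ∅ := by
      rw [← Finset.card_eq_zero]; omega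
    subst hU hR
    rw [EE_empty]
    rcases Nat.eq_zero_or_pos m with rfl | hm
    · simpa using bad_le_one stk ∅ F 0 ∅
    · have hFe : F = ∅ := Finset.subset_empty.1 hFR
      subst hFe
      have : bad stk ∅ ∅ m ∅ = 0 := by
        unfold bad
        rw [if_pos]
        exact ⟨fun _ => [], by simp, by simpa using hm⟩
      rw [this]
      positivity
  | succ N ih =>
    intro stk U F R m hN hFR hF
    classical
    rcases Nat.eq_zero_or_pos m with rfl | hm
    · calc EE R p (bad stk U F 0) ≤ EE R p (fun _ => 1) :=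
          EE_mono R p hp0 hp1 _ _ fun S _ => bad_le_one _ _ _ _ _
        _ = 1 := EE_const _ _ _
        _ ≤ 2 ^ #U * (1 - p / 2) ^ 0 := by
          rw [pow_zero, mul_one]
          exact one_le_pow₀ (by norm_num)
    rcases U.eq_empty_or_nonempty with hU | hU
    · subst hU
      have hFe : F = ∅ := by
        rw [Finset.eq_empty_iff_forall_notMem]
        intro e he
        obtain ⟨-, x, y, -, hy, -⟩ := hF e he
        simp at hy
      subst hFe
      have hb : ∀ S ⊆ R, bad stk ∅ ∅ m S ≤ 0 := by
        intro S _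
        unfold bad
        rw [if_pos]
        exact ⟨fun _ => [], by simp, by simpa using hm⟩
      calc EE R p (bad stk ∅ ∅ m) ≤ EE R p (fun _ => 0) := EE_mono R p hp0 hp1 _ _ hb
        _ = 0 := EE_const _ _ _
        _ ≤ _ := by positivity
    rcases stk with _ | ⟨v, rest⟩
    · obtain ⟨u, hu⟩ := hU
      have hUc : #(U.erase u) + 1 = #U := Finset.card_erase_add_one hu
      have h1 := ih [u] (U.erase u) (F.filter fun e => ∃ x ∈ e, x ∈ U.erase u) R m
        (by simp only [List.length_cons, List.length_nil] at hN ⊢; omega)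
        ((Finset.filter_subset _ _).trans hFR)
        (valid_root u U F hF _ (Finset.filter_subset _ _)
          fun e he => (Finset.mem_filter.1 he).2)
      calc EE R p (bad [] U F m) ≤ EE R p (bad [u] (U.erase u)
            (F.filter fun e => ∃ x ∈ e, x ∈ U.erase u) m) := by
            apply EE_mono R p hp0 hp1
            intro S _
            exact bad_le_bad (good_root S u U F m hu hF)
        _ ≤ 2 ^ #(U.erase u) * (1 - p / 2) ^ m := h1
        _ ≤ 2 ^ #U * (1 - p / 2) ^ m :=
            mul_le_mul_of_nonneg_right (pow_le_pow_right₀ (by norm_num) (by omega))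
              (by positivity)
    · by_cases hex : ∃ u ∈ U, s(v, u) ∈ F
      · obtain ⟨u, hu, he0⟩ := hex
        have hUc : #(U.erase u) + 1 = #U := Finset.card_erase_add_one hu
        have heR : s(v, u) ∈ R := hFR he0
        have hRc : #(R.erase s(v, u)) + 1 = #R := Finset.card_erase_add_one heR
        obtain ⟨m', rfl⟩ : ∃ m', m = m' + 1 := ⟨m - 1, by omega⟩
        have h1 := ih (u :: v :: rest) (U.erase u)
          ((F.erase s(v, u)).filter fun e => ∃ x ∈ e, x ∈ U.erase u) (R.erase s(v, u)) (m' + 1)
          (by simp only [List.length_cons] at hN ⊢; omega)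
          ((Finset.filter_subset _ _).trans (Finset.erase_subset_erase _ hFR))
          (valid_push v u rest U F hF _ ((Finset.filter_subset _ _).trans
            (Finset.erase_subset _ _)) fun e he => (Finset.mem_filter.1 he).2)
        have h2 := ih (v :: rest) U (F.erase s(v, u)) (R.erase s(v, u)) m'
          (by omega) (Finset.erase_subset_erase _ hFR)
          (fun e he => hF e (Finset.mem_of_mem_erase he))
        have hins : R = insert s(v, u) (R.erase s(v, u)) := (Finset.insert_erase heR).symm
        calc EE R p (bad (v :: rest) U F (m' + 1)) =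
              p * EE (R.erase s(v, u)) p (fun S => bad (v :: rest) U F (m' + 1)
                (insert s(v, u) S)) +
              (1 - p) * EE (R.erase s(v, u)) p (bad (v :: rest) U F (m' + 1)) := by
              conv_lhs => rw [hins]
              exact EE_insert _ _ (Finset.notMem_erase _ _) _ _
          _ ≤ p * (2 ^ #(U.erase u) * (1 - p / 2) ^ (m' + 1)) +
              (1 - p) * (2 ^ #U * (1 - p / 2) ^ m') := by
              have hp2 : 0 ≤ 1 - p := by linarith
              have e1 : EE (R.erase s(v, u)) p (fun S => bad (v :: rest) U F (m' + 1)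
                (insert s(v, u) S)) ≤ 2 ^ #(U.erase u) * (1 - p / 2) ^ (m' + 1) := by
                refine le_trans (EE_mono _ p hp0 hp1 _ _ fun S _ => ?_) h1
                exact bad_le_bad (good_push S rest v u U F (m' + 1) hu hF)
              have e2 : EE (R.erase s(v, u)) p (bad (v :: rest) U F (m' + 1)) ≤
                  2 ^ #U * (1 - p / 2) ^ m' := by
                refine le_trans (EE_mono _ p hp0 hp1 _ _ fun S _ => ?_) h2
                exact bad_le_bad (good_absent S (v :: rest) U F s(v, u) m')
              gcongr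
          _ ≤ 2 ^ #U * (1 - p / 2) ^ (m' + 1) := by
              rw [← hUc, pow_succ 2, pow_succ (1 - p / 2)]
              have hpos : 0 ≤ (2 : ℝ) ^ #(U.erase u) * (1 - p / 2) ^ m' := by positivity
              nlinarith [mul_nonneg hpos (sq_nonneg p)]
      · push Not at hex
        have hF' : Valid F rest U := by
          intro e he
          obtain ⟨hd, x, y, rfl, hy, hx⟩ := hF e he
          refine ⟨hd, x, y, rfl, hy, ?_⟩
          rcases hx with hx | hx
          · exact Or.inl hx
          · rcases List.mem_cons.1 hx with rfl | hx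
            · exact absurd he (hex y hy)
            · exact Or.inr hx
        have h1 := ih rest U F R m (by simp only [List.length_cons] at hN; omega) hFR hF'
        refine le_trans (EE_mono R p hp0 hp1 _ _ fun S _ => ?_) h1
        exact bad_le_bad (good_pop S v rest U F m)

/-- With high probability the random subgraph has a rooted spanning forest (given by the lists of
ancestors) such that few edges of the host graph are not vertical. -/
theorem forest_prob [Fintype V] (G : SimpleGraph V) [DecidableRel G.Adj] (p : ℝ) (hp0 : 0 ≤ p)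
    (hp1 : p ≤ 1) (m : ℕ) :
    EE G.edgeFinset p (bad [] univ G.edgeFinset m) ≤
      2 ^ Fintype.card V * (1 - p / 2) ^ m := by
  rw [← Finset.card_univ]
  apply forest_step p hp0 hp1 _ [] univ G.edgeFinset G.edgeFinset m le_rfl (Finset.Subset.refl _)
  intro e he
  rw [SimpleGraph.mem_edgeFinset] at he
  refine ⟨G.not_isDiag_of_mem_edgeSet he, ?_⟩
  induction e with
  | _ x y => exact ⟨x, y, rfl, Finset.mem_univ _, Or.inl (Finset.mem_univ _)⟩

end Forest

end Pool.Agent.Helper23.LC
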