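import Mathlib

namespace Pool.Agent.Helper23.LC

open Finset

section Spot

variable {V : Type*}

/-- `anc` lists the ancestors (nearest first) in a rooted forest -/
def IsForest (anc : V → List V) : Prop := ∀ u, anc u = [] ∨ ∃ w, anc u = w :: anc w

theorem anc_split {anc : V → List V} (h : IsForest anc) {u w : V} (hw : w ∈ anc u) :
    ∃ l, anc u = l ++ w :: anc w := by
  have key : ∀ n, ∀ u, (anc u).length = n → w ∈ anc u → ∃ l, anc u = l ++ w :: anc w := by
    intro n
    induction n with
    | zero =>
      intro u hn hw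
      rw [List.length_eq_zero_iff] at hn
      rw [hn] at hw
      simp at hw
    | succ n ih =>
      intro u hn hw
      rcases h u with h0 | ⟨z, hz⟩
      · rw [h0] at hw
        simp at hw
      · rw [hz] at hw hn
        rcases List.mem_cons.1 hw with rfl | hw
        · exact ⟨[], by rw [hz]; simp⟩
        · obtain ⟨l, hl⟩ := ih z (by simpa using hn) hw
          exact ⟨z :: l, by rw [hz, hl, List.cons_append]⟩
  exact key _ u rfl hw

theorem anc_length {anc : V → List V} (h : IsForest anc) {u w : V} (hw : w ∈ anc u) :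
    (anc w).length < (anc u).length := by
  obtain ⟨l, hl⟩ := anc_split h hw
  rw [hl]
  simp only [List.length_append, List.length_cons]
  omega

theorem anc_trans {anc : V → List V} (h : IsForest anc) {x y z : V} (hx : x ∈ anc y)
    (hy : y ∈ anc z) : x ∈ anc z := by
  obtain ⟨l, hl⟩ := anc_split h hy
  rw [hl]
  exact List.mem_append_right _ (List.mem_cons_of_mem _ hx)

theorem anc_comp {anc : V → List V} (h : IsForest anc) {x y z : V} (hx : x ∈ anc z)
    (hy : y ∈ anc z) : x = y ∨ x ∈ anc y ∨ y ∈ anc x := by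
  have key : ∀ n, ∀ z, (anc z).length = n → x ∈ anc z → y ∈ anc z →
      x = y ∨ x ∈ anc y ∨ y ∈ anc x := by
    intro n
    induction n with
    | zero =>
      intro u hn hw
      rw [List.length_eq_zero_iff] at hn
      rw [hn] at hw
      simp at hw
    | succ n ih =>
      intro z hn hx hy
      rcases h z with h0 | ⟨w, hw⟩
      · rw [h0] at hx
        simp at hx
      · rw [hw] at hx hy hn
        rcases List.mem_cons.1 hx with rfl | hx
        · rcases List.mem_cons.1 hy with rfl | hy
          · exact Or.inl rfl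
          · exact Or.inr (Or.inr hy)
        · rcases List.mem_cons.1 hy with rfl | hy
          · exact Or.inr (Or.inl hx)
          · exact ih w (by simpa using hn) hx hy
  exact key _ z rfl hx hy

theorem anc_nodup {anc : V → List V} (h : IsForest anc) (u : V) : (anc u).Nodup := by
  have key : ∀ n, ∀ z, (anc z).length = n → (anc z).Nodup := by
    intro n
    induction n with
    | zero =>
      intro u hn
      rw [List.length_eq_zero_iff] at hn
      rw [hn]
      simp
    | succ n ih =>
      intro z hn
      rcases h z with h0 | ⟨w, hw⟩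
      · rw [h0]; simp
      · rw [hw] at hn ⊢
        rw [List.nodup_cons]
        refine ⟨fun hm => ?_, ih w (by simpa using hn)⟩
        exact absurd (anc_length h hm) (lt_irrefl _)
  exact key _ u rfl

theorem anc_not_self {anc : V → List V} (h : IsForest anc) (u : V) : u ∉ anc u := fun hm =>
  absurd (anc_length h hm) (lt_irrefl _)

variable [DecidableEq V]

/-- the descendants of `x` inside `W` -/
def desc (anc : V → List V) (W : Finset V) (x : V) : Finset V :=
  W.filter fun y => y = x ∨ x ∈ anc y

/-- The averaging lemma: a rooted forest of average weight at least `c` has a small and compact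
piece of average weight at least `c`. -/
theorem spot {anc : V → List V} (h : IsForest anc) (f : V → ℝ) (c : ℝ) (m : ℕ) (hm : 1 ≤ m) :
    ∀ (n : ℕ) (W : Finset V), #W ≤ n → W.Nonempty → (∀ y ∈ W, ∀ x ∈ anc y, x ∈ W) →
      c * #W ≤ ∑ v ∈ W, f v →
      ∃ Q ⊆ W, Q.Nonempty ∧ #Q ≤ 2 * m ∧ c * #Q ≤ ∑ v ∈ Q, f v ∧
        ((∀ y ∈ Q, ∀ x ∈ anc y, x ∈ Q) ∨
          (m ≤ #Q ∧ ∃ x, ∀ y ∈ Q, x ∈ anc y ∧ ∀ z ∈ anc y, z ∈ Q ∨ z = x ∨ z ∈ anc x)) := by
  intro n
  induction n with
  | zero =>
    intro W hn hne
    rw [Nat.le_zero, Finset.card_eq_zero] at hn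
    subst hn
    simp at hne
  | succ n ih =>
    intro W hn hne hcl hsum
    -- removing a piece
    have hremove : ∀ Q ⊆ W, Q.Nonempty → (∀ y ∈ W \ Q, ∀ x ∈ anc y, x ∉ Q) →
        ¬ c * #Q ≤ ∑ v ∈ Q, f v → ∃ Q ⊆ W, Q.Nonempty ∧ #Q ≤ 2 * m ∧ c * #Q ≤ ∑ v ∈ Q, f v ∧
        ((∀ y ∈ Q, ∀ x ∈ anc y, x ∈ Q) ∨
          (m ≤ #Q ∧ ∃ x, ∀ y ∈ Q, x ∈ anc y ∧ ∀ z ∈ anc y, z ∈ Q ∨ z = x ∨ z ∈ anc x)) := by
      intro Q hQW hQne hQcl hQ
      have hs : ∑ v ∈ W \ Q, f v + ∑ v ∈ Q, f v = ∑ v ∈ W, f v := Finset.sum_sdiff hQW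
      have hc : #(W \ Q) + #Q = #W := Finset.card_sdiff_add_card_eq_card hQW
      have hQpos : 0 < #Q := Finset.card_pos.2 hQne
      push Not at hQ
      have hcr : (#(W \ Q) : ℝ) + #Q = #W := by exact_mod_cast hc
      have hsum' : c * #(W \ Q) < ∑ v ∈ W \ Q, f v := by
        have : c * #W = c * #(W \ Q) + c * #Q := by rw [← hcr]; ring
        linarith
      have hne' : (W \ Q).Nonempty := by
        rw [Finset.nonempty_iff_ne_empty]
        intro he
        rw [he] at hsum'
        simp at hsum'
      obtain ⟨Q', h1, h2⟩ := ih (W \ Q) (by omega) hne' (by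
        intro y hy x hx
        rw [Finset.mem_sdiff]
        exact ⟨hcl y (Finset.mem_sdiff.1 hy).1 x hx, hQcl y hy x hx⟩) hsum'.le
      exact ⟨Q', h1.trans Finset.sdiff_subset, h2⟩
    by_cases hA : ∃ x ∈ W, m < #(desc anc W x)
    · -- a deepest vertex with many descendants
      obtain ⟨x, hx, hxmax⟩ := Finset.exists_max_image
        (W.filter fun x => m < #(desc anc W x)) (fun x => (anc x).length) (by
          obtain ⟨x, h1, h2⟩ := hA
          exact ⟨x, Finset.mem_filter.2 ⟨h1, h2⟩⟩)
      rw [Finset.mem_filter] at hx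
      obtain ⟨hxW, hxm⟩ := hx
      have hsmall : ∀ y ∈ W, x ∈ anc y → #(desc anc W y) ≤ m := by
        intro y hy hxy
        by_contra hcon
        push Not at hcon
        have h1 := hxmax y (Finset.mem_filter.2 ⟨hy, hcon⟩)
        have h2 := anc_length h hxy
        omega
      set D := (desc anc W x).erase x with hD
      have hxD : x ∈ desc anc W x := Finset.mem_filter.2 ⟨hxW, Or.inl rfl⟩
      have hDc : m ≤ #D := by
        rw [hD, Finset.card_erase_of_mem hxD]
        omega
      have hDmem : ∀ y, y ∈ D ↔ y ∈ W ∧ x ∈ anc y := by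
        intro y
        rw [hD, Finset.mem_erase, desc, Finset.mem_filter]
        constructor
        · rintro ⟨h1, h2, h3⟩
          rcases h3 with h3 | h3
          · exact absurd h3 h1
          · exact ⟨h2, h3⟩
        · rintro ⟨h1, h2⟩
          refine ⟨?_, h1, Or.inr h2⟩
          rintro rfl
          exact anc_not_self h _ h2
      obtain ⟨fam, hfam⟩ : ∃ fam : Finset (Finset V), ∀ Q, Q ∈ fam ↔ Q ⊆ D ∧
          (∀ z ∈ D, ∀ z' ∈ D, z ∈ anc z' → (z ∈ Q ↔ z' ∈ Q)) ∧ m ≤ #Q := by
        refine ⟨D.powerset.filter fun Q =>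
          (∀ z ∈ D, ∀ z' ∈ D, z ∈ anc z' → (z ∈ Q ↔ z' ∈ Q)) ∧ m ≤ #Q, fun Q => ?_⟩
        rw [Finset.mem_filter, Finset.mem_powerset]
      have hDfam : D ∈ fam := by
        rw [hfam]
        refine ⟨Finset.Subset.refl D, fun z hz z' hz' _ => ?_, hDc⟩
        exact ⟨fun _ => hz', fun _ => hz⟩
      obtain ⟨Q, hQ, hQmin⟩ := Finset.exists_min_image fam (fun Q => #Q) ⟨D, hDfam⟩
      rw [hfam] at hQ
      obtain ⟨hQD, hQsat, hQm⟩ := hQ
      have hQne : Q.Nonempty := Finset.card_pos.1 (by omega)
      have hQW : Q ⊆ W := fun y hy => ((hDmem y).1 (hQD hy)).1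
      have hQ2 : #Q ≤ 2 * m := by
        by_contra hcon
        push Not at hcon
        obtain ⟨y, hy, hymin⟩ := Finset.exists_min_image Q (fun y => (anc y).length) hQne
        have hyD := (hDmem y).1 (hQD hy)
        have hys := hsmall y hyD.1 hyD.2
        have hyy : y ∈ desc anc W y := Finset.mem_filter.2 ⟨hyD.1, Or.inl rfl⟩
        have hfam' : Q \ desc anc W y ∈ fam := by
          rw [hfam]
          refine ⟨Finset.sdiff_subset.trans hQD, ?_, ?_⟩
          · intro z hz z' hz' hzz'
            rw [Finset.mem_sdiff, Finset.mem_sdiff]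
            constructor
            · rintro ⟨hzQ, hzy⟩
              refine ⟨(hQsat z hz z' hz' hzz').1 hzQ, fun hcon2 => ?_⟩
              rw [desc, Finset.mem_filter] at hcon2
              rcases hcon2.2 with rfl | hyz'
              · have h1 := hymin z hzQ
                have h2 := anc_length h hzz'
                omega
              · rcases anc_comp h hyz' hzz' with rfl | hc | hc
                · exact hzy hyy
                · exact hzy (Finset.mem_filter.2 ⟨((hDmem z).1 hz).1, Or.inr hc⟩)
                · have h1 := hymin z hzQ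
                  have h2 := anc_length h hc
                  omega
            · rintro ⟨hzQ, hzy⟩
              refine ⟨(hQsat z hz z' hz' hzz').2 hzQ, fun hcon2 => ?_⟩
              rw [desc, Finset.mem_filter] at hcon2
              apply hzy
              rw [desc, Finset.mem_filter]
              refine ⟨((hDmem z').1 hz').1, Or.inr ?_⟩
              rcases hcon2.2 with rfl | hyz
              · exact hzz'
              · exact anc_trans h hyz hzz'
          · have := Finset.le_card_sdiff (desc anc W y) Q
            omega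
        have h1 := hQmin _ hfam'
        have h2 : #(Q \ desc anc W y) < #Q := by
          apply Finset.card_lt_card
          rw [Finset.ssubset_iff_of_subset Finset.sdiff_subset]
          exact ⟨y, hy, fun hcon3 => (Finset.mem_sdiff.1 hcon3).2 hyy⟩
        omega
      by_cases hQc : c * #Q ≤ ∑ v ∈ Q, f v
      · refine ⟨Q, hQW, hQne, hQ2, hQc, Or.inr ⟨hQm, x, ?_⟩⟩
        intro y hy
        have hyD := (hDmem y).1 (hQD hy)
        refine ⟨hyD.2, ?_⟩
        intro z hz
        rcases anc_comp h hyD.2 hz with rfl | hc | hc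
        · exact Or.inr (Or.inl rfl)
        · left
          have hzD : z ∈ D := (hDmem z).2 ⟨hcl y hyD.1 z hz, hc⟩
          exact (hQsat z hzD y (hQD hy) hz).2 hy
        · exact Or.inr (Or.inr hc)
      · apply hremove Q hQW hQne _ hQc
        intro y hy z hz hzQ
        have hzD := (hDmem z).1 (hQD hzQ)
        have hyD : y ∈ D := (hDmem y).2 ⟨(Finset.mem_sdiff.1 hy).1, anc_trans h hzD.2 hz⟩
        exact (Finset.mem_sdiff.1 hy).2 ((hQsat z (hQD hzQ) y hyD hz).1 hzQ)
    · push Not at hA
      obtain ⟨r, hr, hrmin⟩ := Finset.exists_min_image W (fun y => (anc y).length) hne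
      have hr0 : anc r = [] := by
        rcases h r with h0 | ⟨w, hw⟩
        · exact h0
        · exfalso
          have hwr : w ∈ anc r := by rw [hw]; simp
          have h1 := hrmin w (hcl r hr w hwr)
          have h2 := anc_length h hwr
          omega
      have hrr : r ∈ desc anc W r := Finset.mem_filter.2 ⟨hr, Or.inl rfl⟩
      have hQW : desc anc W r ⊆ W := Finset.filter_subset _ _
      by_cases hQc : c * #(desc anc W r) ≤ ∑ v ∈ desc anc W r, f v
      · refine ⟨desc anc W r, hQW, ⟨r, hrr⟩, (hA r hr).trans (by omega), hQc, Or.inl ?_⟩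
        intro y hy x hx
        rw [desc, Finset.mem_filter] at hy
        rw [desc, Finset.mem_filter]
        refine ⟨hcl y hy.1 x hx, ?_⟩
        rcases hy.2 with rfl | hy2
        · rw [hr0] at hx
          simp at hx
        · rcases anc_comp h hy2 hx with h1 | h1 | h1
          · exact Or.inl h1.symm
          · exact Or.inr h1
          · rw [hr0] at h1
            simp at h1
      · apply hremove _ hQW ⟨r, hrr⟩ _ hQc
        intro y hy z hz hzQ
        rw [desc, Finset.mem_filter] at hzQ
        apply (Finset.mem_sdiff.1 hy).2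
        rw [desc, Finset.mem_filter]
        refine ⟨(Finset.mem_sdiff.1 hy).1, Or.inr ?_⟩
        rcases hzQ.2 with rfl | h1
        · exact hz
        · exact anc_trans h h1 hz

end Spot

end Pool.Agent.Helper23.LC
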