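import Mathlib
import Pool.Agent.Helper23.LC.Dense
import Pool.Agent.Helper23.LC.Forest
import Pool.Agent.Helper23.LC.Spot

namespace Pool.Agent.Helper23.LC

open Finset

universe u

section Main

variable {V : Type u}

/-- the graph with edge set `S` has a cycle of length at least `l` -/
def Cyc (l : ℝ) (S : Finset (Sym2 V)) : Prop :=
  ∃ (v : V) (c : (SimpleGraph.fromEdgeSet (S : Set (Sym2 V))).Walk v v), c.IsCycle ∧ l ≤ c.length

theorem Cyc.mono_len {l l' : ℝ} {S : Finset (Sym2 V)} (h : Cyc l S) (hl : l' ≤ l) : Cyc l' S := by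
  obtain ⟨v, c, h1, h2⟩ := h
  exact ⟨v, c, h1, hl.trans h2⟩

open Classical in
/-- indicator of having no long cycle -/
noncomputable def noCyc (l : ℝ) (S : Finset (Sym2 V)) : ℝ := if Cyc l S then 0 else 1

theorem noCyc_le_one (l : ℝ) (S : Finset (Sym2 V)) : noCyc l S ≤ 1 := by
  unfold noCyc
  split_ifs <;> simp

theorem noCyc_of {l : ℝ} {S : Finset (Sym2 V)} (h : Cyc l S) : noCyc l S ≤ 0 := by
  unfold noCyc
  rw [if_pos h]

variable [DecidableEq V]

/-- the forest together with its parent edges in `Γ` -/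
def ForestIn (anc : V → List V) (Γ : Finset (Sym2 V)) : Prop :=
  ∀ u, anc u = [] ∨ ∃ w, anc u = w :: anc w ∧ s(u, w) ∈ Γ

omit [DecidableEq V] in
theorem ForestIn.isForest {anc : V → List V} {Γ : Finset (Sym2 V)} (h : ForestIn anc Γ) :
    IsForest anc := by
  intro u
  rcases h u with h | ⟨w, h, -⟩
  · exact Or.inl h
  · exact Or.inr ⟨w, h⟩

omit [DecidableEq V] in
theorem ForestIn.chain {anc : V → List V} {Γ : Finset (Sym2 V)} (h : ForestIn anc Γ) (u : V) :
    (u :: anc u).IsChain fun a b => s(a, b) ∈ Γ ∧ a ≠ b := by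
  have key : ∀ n, ∀ z, (anc z).length = n → (z :: anc z).IsChain fun a b => s(a, b) ∈ Γ ∧ a ≠ b := by
    intro n
    induction n with
    | zero =>
      intro u hn
      rw [List.length_eq_zero_iff] at hn
      rw [hn]
      simp
    | succ n ih =>
      intro z hn
      rcases h z with h0 | ⟨w, hw, hΓ⟩
      · rw [h0]; simp
      · have hwz : w ∈ anc z := by rw [hw]; simp
        have h1 := ih w (by rw [hw] at hn; simpa using hn)
        rw [hw, List.isChain_cons_cons]
        refine ⟨⟨hΓ, ?_⟩, h1⟩
        rintro rfl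
        exact anc_not_self h.isForest _ hwz
  exact key _ u rfl

/-- a long back edge closes a long cycle -/
theorem long_edge {anc : V → List V} {S1 S2 : Finset (Sym2 V)} (h : ForestIn anc S1) (L : ℕ)
    (hL : 1 ≤ L) {x y : V} (hx : x ∈ (anc y).drop L) (hxy : s(x, y) ∈ S2) :
    Cyc (L + 2) (S1 ∪ S2) := by
  obtain ⟨d1, d2, hd⟩ := List.append_of_mem hx
  have hlen : L ≤ (anc y).length := by
    by_contra hcon
    push Not at hcon
    rw [List.drop_eq_nil_of_le hcon.le] at hx
    simp at hx
  have hsplit : y :: anc y = (y :: ((anc y).take L ++ d1 ++ [x])) ++ d2 := by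
    rw [List.cons_append]
    congr 1
    conv_lhs => rw [← List.take_append_drop L (anc y), hd]
    simp
  have hpre : (y :: ((anc y).take L ++ d1 ++ [x])) <+: y :: anc y := ⟨d2, hsplit.symm⟩
  have hchain : (y :: ((anc y).take L ++ d1 ++ [x])).IsChain
      fun a b => s(a, b) ∈ S1 ∧ a ≠ b := by
    have h0 := h.chain y
    rw [hsplit] at h0
    exact h0.left_of_append
  have hnd : (y :: anc y).Nodup := List.nodup_cons.2 ⟨anc_not_self h.isForest y,
    anc_nodup h.isForest y⟩
  have hll : (y :: ((anc y).take L ++ d1 ++ [x])).length = L + d1.length + 2 := by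
    simp only [List.length_cons, List.length_append, List.length_take, List.length_nil]
    omega
  have hxy' : x ≠ y := by
    rintro rfl
    exact anc_not_self h.isForest _ (List.mem_of_mem_drop hx)
  obtain ⟨v, c, hc1, hc2⟩ := exists_isCycle_of_list
    (G := SimpleGraph.fromEdgeSet ((S1 ∪ S2 : Finset (Sym2 V)) : Set (Sym2 V)))
    (y :: ((anc y).take L ++ d1 ++ [x])) (by simp) (by
      refine hchain.imp fun a b hab => ?_
      rw [SimpleGraph.fromEdgeSet_adj]
      exact ⟨by simpa using Or.inl hab.1, hab.2⟩) (hnd.sublist hpre.sublist) (by omega) (by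
      rw [SimpleGraph.fromEdgeSet_adj]
      have h1 : (y :: ((anc y).take L ++ d1 ++ [x])).getLast (by simp) = x := by
        rw [List.getLast_cons (by simp), List.getLast_append_of_ne_nil _ (by simp)]
        simp
      rw [h1, List.head_cons]
      exact ⟨by simpa using Or.inr hxy, hxy'⟩)
  refine ⟨v, c, hc1, ?_⟩
  rw [hc2, hll]
  push_cast
  have : (0 : ℝ) ≤ d1.length := by positivity
  linarith

variable [Fintype V] (G : SimpleGraph V) [DecidableRel G.Adj]

/-- the number of host neighbours among the `L` closest ancestors -/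
def up (anc : V → List V) (L : ℕ) (y : V) : ℕ := #(((anc y).take L).toFinset.filter (G.Adj y))

open Classical in
/-- host edges joining a vertex to an ancestor at distance more than `L` -/
noncomputable def longE (anc : V → List V) (L : ℕ) : Finset (Sym2 V) :=
  G.edgeFinset.filter fun e => ∃ x y, e = s(x, y) ∧ x ∈ (anc y).drop L

open Classical in
theorem count_edges (anc : V → List V) (L : ℕ) :
    #G.edgeFinset ≤ #(G.edgeFinset.filter fun e => ¬ Vert anc univ e) + #(longE G anc L) +
      ∑ y, up G anc L y := by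
  have hsub : G.edgeFinset ⊆ (G.edgeFinset.filter fun e => ¬ Vert anc univ e) ∪ longE G anc L ∪
      (univ.biUnion fun y => (((anc y).take L).toFinset.filter (G.Adj y)).image
        fun x => s(x, y)) := by
    intro e he
    by_cases hv : Vert anc univ e
    · obtain ⟨x, y, rfl, -, hx⟩ := hv
      have hadj : G.Adj x y := by
        rw [SimpleGraph.mem_edgeFinset, SimpleGraph.mem_edgeSet] at he
        exact he
      rw [← List.take_append_drop L (anc y), List.mem_append] at hx
      rcases hx with hx | hx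
      · apply Finset.mem_union_right
        rw [Finset.mem_biUnion]
        refine ⟨y, Finset.mem_univ _, ?_⟩
        rw [Finset.mem_image]
        refine ⟨x, ?_, rfl⟩
        rw [Finset.mem_filter, List.mem_toFinset]
        exact ⟨hx, hadj.symm⟩
      · apply Finset.mem_union_left
        apply Finset.mem_union_right
        rw [longE, Finset.mem_filter]
        exact ⟨he, x, y, rfl, hx⟩
    · apply Finset.mem_union_left
      apply Finset.mem_union_left
      rw [Finset.mem_filter]
      exact ⟨he, hv⟩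
  refine (Finset.card_le_card hsub).trans ((Finset.card_union_le _ _).trans ?_)
  apply Nat.add_le_add (Finset.card_union_le _ _)
  refine Finset.card_biUnion_le.trans (Finset.sum_le_sum fun y _ => ?_)
  exact Finset.card_image_le

/-- the piece is dense -/
theorem piece_edges {anc : V → List V} (h : IsForest anc) (L : ℕ) (Q U : Finset V)
    (hQU : Q ⊆ U) (hU : ∀ y ∈ Q, ∀ x ∈ (anc y).take L, x ∈ U) :
    ∑ y ∈ Q, up G anc L y ≤
      #(G.comap (Subtype.val : {x // x ∈ U} → V)).edgeFinset := by
  classical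
  have h1 : ∑ y ∈ Q, up G anc L y =
      #(Q.sigma fun y => ((anc y).take L).toFinset.filter (G.Adj y)) := by
    rw [Finset.card_sigma]
    rfl
  have h2 : #((Q.sigma fun y => ((anc y).take L).toFinset.filter (G.Adj y)).image
      fun yx => s(yx.2, yx.1)) = #(Q.sigma fun y => ((anc y).take L).toFinset.filter (G.Adj y)) := by
    apply Finset.card_image_of_injOn
    rintro ⟨y, x⟩ hyx ⟨y', x'⟩ hyx' heq
    simp only [Finset.coe_sigma, Set.mem_sigma_iff, Finset.mem_coe, Finset.mem_filter,
      List.mem_toFinset] at hyx hyx'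
    simp only [Sym2.eq_iff] at heq
    rcases heq with ⟨rfl, rfl⟩ | ⟨rfl, rfl⟩
    · rfl
    · exfalso
      have a1 := anc_length h (List.mem_of_mem_take hyx.2.1)
      have a2 := anc_length h (List.mem_of_mem_take hyx'.2.1)
      omega
  rw [h1, ← h2]
  have h3 : ((Q.sigma fun y => ((anc y).take L).toFinset.filter (G.Adj y)).image
      fun yx => s(yx.2, yx.1)) ⊆
      (G.comap (Subtype.val : {x // x ∈ U} → V)).edgeFinset.image (Sym2.map Subtype.val) := by
    intro e he
    rw [Finset.mem_image] at he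
    obtain ⟨⟨y, x⟩, hyx, rfl⟩ := he
    simp only [Finset.mem_sigma, Finset.mem_filter, List.mem_toFinset] at hyx
    rw [Finset.mem_image]
    refine ⟨s(⟨x, hU y hyx.1 x hyx.2.1⟩, ⟨y, hQU hyx.1⟩), ?_, ?_⟩
    · rw [SimpleGraph.mem_edgeFinset, SimpleGraph.mem_edgeSet, SimpleGraph.comap_adj]
      exact hyx.2.2.symm
    · simp
  exact (Finset.card_le_card h3).trans Finset.card_image_le

/-- second round: if there are many long edges then one of them is hit -/
theorem second_long {anc : V → List V} {S1 : Finset (Sym2 V)} (h : ForestIn anc S1) (L : ℕ)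
    (hL : 1 ≤ L) (l : ℝ) (hl : l ≤ L) (p : ℝ) (hp0 : 0 ≤ p) (hp1 : p ≤ 1) :
    EE G.edgeFinset p (fun S2 => noCyc l (S1 ∪ S2)) ≤ (1 - p) ^ #(longE G anc L) := by
  classical
  have h1 := EE_exists_le ({()} : Finset Unit) G.edgeFinset p hp0 hp1 (fun _ => longE G anc L)
    (fun S2 => noCyc l (S1 ∪ S2)) (by
      intro S2 _ hS
      have h2 := hS () (by simp)
      rw [Finset.not_disjoint_iff] at h2
      obtain ⟨e, he1, he2⟩ := h2
      rw [longE, Finset.mem_filter] at he2
      obtain ⟨-, x, y, rfl, hx⟩ := he2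
      exact noCyc_of ((long_edge h L hL hx he1).mono_len (by linarith)))
    (fun S2 _ => noCyc_le_one _ _)
  rw [Finset.sum_singleton] at h1
  refine h1.trans (le_of_eq ?_)
  congr 2
  exact Finset.inter_eq_right.2 (Finset.filter_subset _ _)

/-- second round: a dense piece yields a long cycle -/
theorem second_dense (S1 : Finset (Sym2 V)) (U : Finset V) (δ γ : ℝ) (N0 : ℕ)
    (hdense : ∀ (α : Type u) [Fintype α] [DecidableEq α] (H Γ : SimpleGraph α)
      [DecidableRel H.Adj], N0 ≤ Fintype.card α →
      (∀ A B : Finset α, Disjoint A B → γ * (Fintype.card α : ℝ) ^ 2 ≤ #(H.interedges A B) →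
        ∃ x ∈ A, ∃ y ∈ B, Γ.Adj x y) →
      ∀ l : ℝ, 0 < l → (l + δ * Fintype.card α) * Fintype.card α ≤ 2 * #H.edgeFinset →
      ∃ (v : α) (c : Γ.Walk v v), c.IsCycle ∧ l ≤ c.length)
    (hN0 : N0 ≤ #U) (l : ℝ) (hl : 0 < l)
    (hlU : (l + δ * #U) * #U ≤ 2 * #(G.comap (Subtype.val : {x // x ∈ U} → V)).edgeFinset)
    (p : ℝ) (hp0 : 0 ≤ p) (hp1 : p ≤ 1) :
    EE G.edgeFinset p (fun S2 => noCyc l (S1 ∪ S2)) ≤
      4 ^ #U * (1 - p) ^ ⌈γ * (#U : ℝ) ^ 2⌉₊ := by
  classical
  set H := G.comap (Subtype.val : {x // x ∈ U} → V) with hH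
  have hcU : Fintype.card {x // x ∈ U} = #U := by simp
  let I : Finset (Finset {x // x ∈ U} × Finset {x // x ∈ U}) :=
    univ.filter fun AB => Disjoint AB.1 AB.2 ∧ γ * (#U : ℝ) ^ 2 ≤ #(H.interedges AB.1 AB.2)
  let F : Finset {x // x ∈ U} × Finset {x // x ∈ U} → Finset (Sym2 V) := fun AB =>
    (H.interedges AB.1 AB.2).image fun xy => s(xy.1.1, xy.2.1)
  have h1 := EE_exists_le I G.edgeFinset p hp0 hp1 F (fun S2 => noCyc l (S1 ∪ S2)) (by
      intro S2 hS2 hS
      apply noCyc_of
      obtain ⟨v, c, hc1, hc2⟩ := hdense {x // x ∈ U} H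
        ((SimpleGraph.fromEdgeSet ((S1 ∪ S2 : Finset (Sym2 V)) : Set (Sym2 V))).comap
          (Subtype.val : {x // x ∈ U} → V)) (by rw [hcU]; exact hN0) (by
            intro A B hAB hcard
            rw [hcU] at hcard
            have h2 := hS (A, B) (by
              rw [Finset.mem_filter]
              exact ⟨Finset.mem_univ _, hAB, hcard⟩)
            rw [Finset.not_disjoint_iff] at h2
            obtain ⟨e, he1, he2⟩ := h2
            rw [Finset.mem_image] at he2
            obtain ⟨⟨x, y⟩, hxy, rfl⟩ := he2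
            rw [SimpleGraph.mem_interedges_iff] at hxy
            refine ⟨x, hxy.1, y, hxy.2.1, ?_⟩
            rw [SimpleGraph.comap_adj, SimpleGraph.fromEdgeSet_adj]
            refine ⟨by simpa using Or.inr he1, ?_⟩
            have := hxy.2.2
            rw [hH, SimpleGraph.comap_adj] at this
            exact this.ne) l hl (by rw [hcU]; exact hlU)
      refine ⟨v.1, c.map ⟨Subtype.val, fun {a b} h => h⟩, ?_, ?_⟩
      · exact hc1.map Subtype.val_injective
      · rw [SimpleGraph.Walk.length_map]
        exact hc2)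
    (fun S2 _ => noCyc_le_one _ _)
  refine h1.trans ?_
  have hterm : ∀ AB ∈ I, (1 - p) ^ #(G.edgeFinset ∩ F AB) ≤ (1 - p) ^ ⌈γ * (#U : ℝ) ^ 2⌉₊ := by
    intro AB hAB
    rw [Finset.mem_filter] at hAB
    apply pow_le_pow_of_le_one (by linarith) (by linarith)
    rw [Nat.ceil_le]
    refine hAB.2.2.trans ?_
    have hsub : F AB ⊆ G.edgeFinset := by
      intro e he
      rw [Finset.mem_image] at he
      obtain ⟨⟨x, y⟩, hxy, rfl⟩ := he
      rw [SimpleGraph.mem_interedges_iff] at hxy
      rw [SimpleGraph.mem_edgeFinset, SimpleGraph.mem_edgeSet]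
      exact hxy.2.2
    rw [Finset.inter_eq_right.2 hsub]
    have hinj : #(F AB) = #(H.interedges AB.1 AB.2) := by
      apply Finset.card_image_of_injOn
      rintro ⟨x, y⟩ hxy ⟨x', y'⟩ hxy' heq
      rw [Finset.mem_coe, SimpleGraph.mem_interedges_iff] at hxy hxy'
      simp only [Sym2.eq_iff] at heq
      rcases heq with ⟨e1, e2⟩ | ⟨e1, e2⟩
      · rw [Prod.mk.injEq]
        exact ⟨Subtype.ext e1, Subtype.ext e2⟩
      · exfalso
        have e1' : x = y' := Subtype.ext e1
        subst e1'
        exact Finset.disjoint_left.1 hAB.2.1 hxy.1 hxy'.2.1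
    rw [hinj]
  calc ∑ AB ∈ I, (1 - p) ^ #(G.edgeFinset ∩ F AB) ≤
        ∑ AB ∈ I, (1 - p) ^ ⌈γ * (#U : ℝ) ^ 2⌉₊ := Finset.sum_le_sum hterm
    _ = #I * (1 - p) ^ ⌈γ * (#U : ℝ) ^ 2⌉₊ := by rw [Finset.sum_const, nsmul_eq_mul]
    _ ≤ 4 ^ #U * (1 - p) ^ ⌈γ * (#U : ℝ) ^ 2⌉₊ := by
        have hI : #I ≤ 4 ^ #U := by
          calc #I ≤ #(univ : Finset (Finset {x // x ∈ U} × Finset {x // x ∈ U})) :=
                Finset.card_le_card (Finset.filter_subset _ _)
            _ = 4 ^ #U := by
                rw [Finset.card_univ, Fintype.card_prod, Fintype.card_finset, hcU, ← mul_pow]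
                norm_num
        have hI' : (#I : ℝ) ≤ 4 ^ #U := by exact_mod_cast hI
        have : 0 ≤ (1 - p) ^ ⌈γ * (#U : ℝ) ^ 2⌉₊ := pow_nonneg (by linarith) _
        gcongr

/-- From the averaging lemma to a piece of bounded size. -/
theorem spot_piece {anc : V → List V} (h : IsForest anc) (f : V → ℝ) (c : ℝ) (M k : ℕ)
    (hM : 1 ≤ M) (hk : 1 ≤ k) [Nonempty V] (hsum : c * Fintype.card V ≤ ∑ v, f v) :
    ∃ Q U : Finset V, Q.Nonempty ∧ Q ⊆ U ∧ (∀ y ∈ Q, ∀ x ∈ (anc y).take k, x ∈ U) ∧
      #U ≤ (2 * M + 1) * k ∧ M * #U ≤ (M + 1) * #Q ∧ c * #Q ≤ ∑ v ∈ Q, f v := by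
  obtain ⟨Q, -, hne, hQ2, hQs, hcase⟩ := spot h f c (M * k) (Nat.mul_pos hM hk)
    (Fintype.card V) univ (by rw [Finset.card_univ]) Finset.univ_nonempty (by simp)
    (by rw [Finset.card_univ]; exact hsum)
  rcases hcase with hcl | ⟨hQm, x, hx⟩
  · refine ⟨Q, Q, hne, Finset.Subset.refl _, ?_, ?_, ?_, hQs⟩
    · intro y hy x hx
      exact hcl y hy x (List.mem_of_mem_take hx)
    · calc #Q ≤ 2 * (M * k) := hQ2
        _ ≤ (2 * M + 1) * k := by rw [add_mul, mul_assoc]; omega
    · exact Nat.mul_le_mul_right _ (by omega)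
  · refine ⟨Q, Q ∪ ((x :: anc x).take k).toFinset, hne, Finset.subset_union_left, ?_, ?_, ?_, hQs⟩
    · intro y hy z hz
      rw [Finset.mem_union, List.mem_toFinset]
      obtain ⟨hxy, hxz⟩ := hx y hy
      have hzy := List.mem_of_mem_take hz
      rcases hxz z hzy with h1 | h1
      · exact Or.inl h1
      · right
        have hzx : z ∈ x :: anc x := by
          rcases h1 with h1 | h1
          · rw [h1]; simp
          · exact List.mem_cons_of_mem _ h1
        obtain ⟨l1, hl1⟩ := anc_split h hxy
        have hnd := anc_nodup h y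
        rw [hl1] at hz hnd
        rw [List.take_append, List.mem_append] at hz
        rcases hz with hz | hz
        · exfalso
          rw [List.nodup_append] at hnd
          exact hnd.2.2 z (List.mem_of_mem_take hz) z hzx rfl
        · have htt : (x :: anc x).take (k - l1.length) =
              ((x :: anc x).take k).take (k - l1.length) := by
            rw [List.take_take, min_eq_left (by omega)]
          rw [htt] at hz
          exact List.mem_of_mem_take hz
    · have h1 : #((x :: anc x).take k).toFinset ≤ k :=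
        (List.toFinset_card_le _).trans (List.length_take_le _ _)
      have h2 := Finset.card_union_le Q ((x :: anc x).take k).toFinset
      rw [add_mul, one_mul, mul_assoc]
      omega
    · have h1 : #((x :: anc x).take k).toFinset ≤ k :=
        (List.toFinset_card_le _).trans (List.length_take_le _ _)
      have h2 := Finset.card_union_le Q ((x :: anc x).take k).toFinset
      calc M * #(Q ∪ ((x :: anc x).take k).toFinset) ≤ M * (#Q + k) :=
            Nat.mul_le_mul_left _ (by omega)
        _ = M * #Q + M * k := by ring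
        _ ≤ M * #Q + #Q := by omega
        _ = (M + 1) * #Q := by ring

end Main

end Pool.Agent.Helper23.LC
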