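import Mathlib
import Pool.Agent.Helper23.LC.Main

namespace Pool.Agent.Helper23.LC

open Finset

universe u

theorem one_sub_pow_le (p : ℝ) (hp1 : p ≤ 1) (n : ℕ) : (1 - p) ^ n ≤ Real.exp (-(p * n)) := by
  calc (1 - p) ^ n ≤ Real.exp (-p) ^ n :=
        pow_le_pow_left₀ (by linarith) (Real.one_sub_le_exp_neg p) n
    _ = Real.exp (-(p * n)) := by
        rw [← Real.exp_nat_mul]
        congr 1
        ring

/-- The deterministic part of the argument together with the second round. -/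
theorem second_round {V : Type u} [DecidableEq V] [Fintype V] [Nonempty V] (G : SimpleGraph V)
    [DecidableRel G.Adj] (ε : ℝ) (hε : 0 < ε) (hε2 : ε ≤ 1 / 2) (M N0 : ℕ) (hM1 : 1 ≤ M)
    (hM : 4 ≤ ε * (M + 1)) (δ γ : ℝ) (hδ : δ * (2 * M + 1) = ε / 4) (hγ : 0 < γ)
    (hdense : ∀ (α : Type u) [Fintype α] [DecidableEq α] (H Γ : SimpleGraph α)
      [DecidableRel H.Adj], N0 ≤ Fintype.card α →
      (∀ A B : Finset α, Disjoint A B → γ * (Fintype.card α : ℝ) ^ 2 ≤ #(H.interedges A B) →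
        ∃ x ∈ A, ∃ y ∈ B, Γ.Adj x y) →
      ∀ l : ℝ, 0 < l → (l + δ * Fintype.card α) * Fintype.card α ≤ 2 * #H.edgeFinset →
      ∃ (v : α) (c : Γ.Walk v v), c.IsCycle ∧ l ≤ c.length)
    (k : ℕ) (p c X : ℝ) (hp0 : 0 ≤ p) (hp1 : p ≤ 1) (hN0 : 2 * (N0 : ℝ) ≤ k) (hk : 1 ≤ k)
    (hcη : c ≤ ε / 64) (hcγ : c ≤ γ / 4)
    (hX : X = Real.exp (-(c * (p * k)))) (hX4 : 4 * X ≤ 1)
    (hE : (k : ℝ) * Fintype.card V ≤ 2 * #G.edgeFinset) (S1 : Finset (Sym2 V))
    (hgood : Good S1 [] univ G.edgeFinset ⌈ε / 16 * k * Fintype.card V⌉₊)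
    (p2 : ℝ) (hp2 : p / 2 ≤ p2) (hp21 : p2 ≤ 1) :
    EE G.edgeFinset p2 (fun S2 => noCyc ((1 - ε) * k) (S1 ∪ S2)) ≤ 4 * X := by
  classical
  have hp20 : 0 ≤ p2 := by linarith
  have hXpos : 0 < X := by rw [hX]; exact Real.exp_pos _
  have hkr : (1 : ℝ) ≤ k := by exact_mod_cast hk
  set n := Fintype.card V with hn
  have hn1 : 1 ≤ n := Fintype.card_pos
  have hnr : (1 : ℝ) ≤ n := by exact_mod_cast hn1
  obtain ⟨anc, hanc, hcount⟩ := hgood
  have hF : ForestIn anc S1 := by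
    intro u
    rcases hanc u (Finset.mem_univ _) with h | ⟨w, l, h1, h2, h3⟩
    · exact Or.inl h
    · right
      refine ⟨w, ?_, h2⟩
      rcases h3 with ⟨-, h3⟩ | ⟨l1, h3⟩
      · rw [h1, h3]
      · simp at h3
  have hcount' : (#(G.edgeFinset.filter fun e => ¬ Vert anc univ e) : ℝ) ≤ ε / 16 * k * n := by
    have h1 : #(G.edgeFinset.filter fun e => ¬ Vert anc univ e) < ⌈ε / 16 * k * n⌉₊ := by
      convert! hcount
    exact (Nat.lt_ceil.1 h1).le
  by_cases hlong : ε / 16 * k ≤ #(longE G anc k)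
  · have h1 := second_long G hF k hk ((1 - ε) * k) (by nlinarith) p2 hp20 hp21
    refine h1.trans ((one_sub_pow_le p2 hp21 _).trans ?_)
    have h2 : Real.exp (-(p2 * #(longE G anc k))) ≤ X := by
      rw [hX]
      apply Real.exp_le_exp.2
      have e1 : p / 2 * (ε / 16 * k) ≤ p2 * #(longE G anc k) := by gcongr
      have e2 : c * (p * k) ≤ ε / 64 * (p * k) := by gcongr
      have e3 : 0 ≤ ε * (p * k) := by positivity
      nlinarith
    linarith
  · push Not at hlong
    have hsum : (k / 2 * (1 - ε / 4) : ℝ) * n ≤ ∑ v, (up G anc k v : ℝ) := by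
      have h1 := count_edges G anc k
      have h2 : (#G.edgeFinset : ℝ) ≤ #(G.edgeFinset.filter fun e => ¬ Vert anc univ e) +
          #(longE G anc k) + ∑ y, (up G anc k y : ℝ) := by exact_mod_cast h1
      have h3 : ε / 16 * k ≤ ε / 16 * k * n := by
        have : 0 ≤ ε / 16 * k := by positivity
        nlinarith
      nlinarith
    obtain ⟨Q, U, hQne, hQU, hU, hUc, hUM, hQs⟩ := spot_piece hF.isForest
      (fun v => (up G anc k v : ℝ)) (k / 2 * (1 - ε / 4)) M k hM1 hk hsum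
    have hpe := piece_edges G hF.isForest k Q U hQU hU
    have hpe' : (∑ v ∈ Q, (up G anc k v : ℝ)) ≤
        #(G.comap (Subtype.val : {x // x ∈ U} → V)).edgeFinset := by exact_mod_cast hpe
    set eU := #(G.comap (Subtype.val : {x // x ∈ U} → V)).edgeFinset with heU
    set N := #U with hN
    have hNpos : 1 ≤ N := Finset.card_pos.2 (hQne.mono hQU)
    have hNr : (1 : ℝ) ≤ N := by exact_mod_cast hNpos
    have hMr : (1 : ℝ) ≤ M := by exact_mod_cast hM1
    have hUc' : (N : ℝ) ≤ (2 * M + 1) * k := by exact_mod_cast hUc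
    have hUM' : (M : ℝ) * N ≤ (M + 1) * #Q := by exact_mod_cast hUM
    have hδ0 : 0 ≤ δ := by
      by_contra hcon
      push Not at hcon
      have : δ * (2 * M + 1) < 0 := mul_neg_of_neg_of_pos hcon (by linarith)
      linarith
    -- the density of the piece
    have hl1 : (1 - ε) * k + δ * N ≤ (1 - 3 * ε / 4) * k := by
      have : δ * N ≤ δ * ((2 * M + 1) * k) := by gcongr
      have h2 : δ * ((2 * M + 1) * k) = ε / 4 * k := by rw [← mul_assoc, hδ]
      linarith
    have hQN : (1 - ε / 4) * N ≤ #Q := by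
      have h1 : (1 - ε / 4) * (M + 1) ≤ M := by linarith
      have h2 : (1 - ε / 4) * (M + 1) * N ≤ (M + 1) * #Q := by
        calc (1 - ε / 4) * (M + 1) * N ≤ M * N := by gcongr
          _ ≤ _ := hUM'
      have h3 : (M + 1 : ℝ) * ((1 - ε / 4) * N) ≤ (M + 1) * #Q := by linarith
      exact le_of_mul_le_mul_left h3 (by linarith)
    have hdens : ((1 - ε) * k + δ * N) * N ≤ 2 * eU := by
      have h1 : (k / 2 * (1 - ε / 4) : ℝ) * ((1 - ε / 4) * N) ≤ k / 2 * (1 - ε / 4) * #Q := by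
        have : (0 : ℝ) ≤ k / 2 * (1 - ε / 4) := by
          have : (0 : ℝ) ≤ 1 - ε / 4 := by linarith
          positivity
        gcongr
      have h2 : ((1 - ε) * k + δ * N) * N ≤ (1 - 3 * ε / 4) * k * N := by gcongr
      have h3 : (1 - 3 * ε / 4) * (k * N) ≤ (1 - ε / 4) * (1 - ε / 4) * (k * N) := by
        have : (1 - 3 * ε / 4) ≤ (1 - ε / 4) * (1 - ε / 4) := by nlinarith
        gcongr
      nlinarith
    have hNk : (k : ℝ) / 2 ≤ N := by
      have h : eU ≤ N.choose 2 := by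
        have := SimpleGraph.card_edgeFinset_le_card_choose_two
          (G := G.comap (Subtype.val : {x // x ∈ U} → V))
        rwa [Fintype.card_coe] at this
      rw [Nat.choose_two_right] at h
      have h2 : 2 * eU ≤ N * (N - 1) := by
        have := Nat.div_mul_le_self (N * (N - 1)) 2
        omega
      have h3 : N * (N - 1) ≤ N * N := Nat.mul_le_mul_left _ (by omega)
      have h4 : (2 * eU : ℝ) ≤ N * N := by exact_mod_cast h2.trans h3
      have h5 : ((1 - ε) * k) * N ≤ N * N := by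
        have : 0 ≤ δ * N * N := by positivity
        nlinarith
      have h6 : (1 - ε) * k ≤ N := le_of_mul_le_mul_right h5 (by linarith)
      nlinarith
    have h1 := second_dense G S1 U δ γ N0 hdense (by
      have : (N0 : ℝ) ≤ N := by linarith
      exact_mod_cast this) ((1 - ε) * k) (by
        have : 0 < 1 - ε := by linarith
        positivity) hdens p2 hp20 hp21
    rw [← hN] at h1
    refine h1.trans ?_
    have h2 : (1 - p2) ^ ⌈γ * (N : ℝ) ^ 2⌉₊ ≤ X ^ N := by
      refine (one_sub_pow_le p2 hp21 _).trans ?_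
      rw [hX, ← Real.exp_nat_mul]
      apply Real.exp_le_exp.2
      have e1 : p2 * (γ * (N : ℝ) ^ 2) ≤ p2 * ⌈γ * (N : ℝ) ^ 2⌉₊ := by
        gcongr
        exact Nat.le_ceil _
      have e2 : p / 2 * (γ * (k / 2 * N)) ≤ p2 * (γ * (N : ℝ) ^ 2) := by
        have : (k : ℝ) / 2 * N ≤ (N : ℝ) ^ 2 := by nlinarith
        gcongr
      have e3 : c * (p * k) * N ≤ γ / 4 * (p * k) * N := by gcongr
      nlinarith
    calc (4 : ℝ) ^ N * (1 - p2) ^ ⌈γ * (N : ℝ) ^ 2⌉₊ ≤ 4 ^ N * X ^ N := by gcongr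
      _ = (4 * X) ^ N := by rw [mul_pow]
      _ ≤ (4 * X) ^ 1 := pow_le_pow_of_le_one (by linarith) hX4 hNpos
      _ = 4 * X := pow_one _

theorem uniform_half (ε : ℝ) (hε : 0 < ε) (hε2 : ε ≤ 1 / 2) :
    ∃ W : ℝ, 0 < W ∧ ∀ (V : Type u) [Fintype V] [DecidableEq V] [Nonempty V] (G : SimpleGraph V)
      [DecidableRel G.Adj] (k : ℕ) (p : ℝ), 0 ≤ p → p ≤ 1 → W ≤ p * k →
      (k : ℝ) * Fintype.card V ≤ 2 * #G.edgeFinset →
      EE G.edgeFinset p (noCyc ((1 - ε) * k)) ≤ ε := by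
  obtain ⟨M, hMdef⟩ : ∃ M : ℕ, M = ⌈4 / ε⌉₊ := ⟨_, rfl⟩
  have hM1 : 1 ≤ M := by
    rw [hMdef]
    exact Nat.ceil_pos.2 (by positivity)
  have hM : 4 ≤ ε * (M + 1) := by
    have h1 : 4 / ε ≤ M := by rw [hMdef]; exact Nat.le_ceil _
    rw [div_le_iff₀ hε] at h1
    linarith
  have hM1r : (1 : ℝ) ≤ M := by exact_mod_cast hM1
  obtain ⟨δ, hδdef⟩ : ∃ δ : ℝ, δ = ε / 4 / (2 * M + 1) := ⟨_, rfl⟩
  have hδ0 : 0 < δ := by rw [hδdef]; positivity
  have hδ1 : δ ≤ 1 := by
    rw [hδdef, div_le_one (by positivity)]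
    linarith
  have hδ : δ * (2 * M + 1) = ε / 4 := by
    rw [hδdef]
    field_simp
  obtain ⟨γ, hγ, N0, hdense⟩ := dense_cycle.{u} δ hδ0 hδ1
  obtain ⟨c, hcdef⟩ : ∃ c : ℝ, c = min (ε / 64) (γ / 4) := ⟨_, rfl⟩
  have hc0 : 0 < c := by rw [hcdef]; positivity
  have hcη : c ≤ ε / 64 := by rw [hcdef]; exact min_le_left _ _
  have hcγ : c ≤ γ / 4 := by rw [hcdef]; exact min_le_right _ _
  refine ⟨16 / (c * ε) + 2 * N0 + 1, by positivity, ?_⟩
  intro V _ _ _ G _ k p hp0 hp1 hW hE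
  have hW1 : 16 / (c * ε) ≤ p * k := by
    have : (0 : ℝ) ≤ N0 := by positivity
    linarith
  have hpk : p * k ≤ k := by
    have : (0 : ℝ) ≤ k := by positivity
    nlinarith
  have hpos16 : 0 < 16 / (c * ε) := by positivity
  have hkr : (2 * N0 + 1 : ℝ) ≤ k := by linarith
  have hk : 1 ≤ k := by
    have : (1 : ℝ) ≤ k := by
      have : (0 : ℝ) ≤ N0 := by positivity
      linarith
    exact_mod_cast this
  obtain ⟨X, hX⟩ : ∃ X, X = Real.exp (-(c * (p * k))) := ⟨_, rfl⟩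
  have hXpos : 0 < X := by rw [hX]; exact Real.exp_pos _
  have hXle : 16 * X ≤ ε := by
    have h1 : c * (p * k) + 1 ≤ Real.exp (c * (p * k)) := Real.add_one_le_exp _
    have h2 : X * Real.exp (c * (p * k)) = 1 := by
      rw [hX, ← Real.exp_add]
      simp
    have h3 : 16 / ε ≤ c * (p * k) := by
      calc 16 / ε = c * (16 / (c * ε)) := by field_simp
        _ ≤ c * (p * k) := by gcongr
    have h4 : X * (16 / ε) ≤ 1 := by
      calc X * (16 / ε) ≤ X * Real.exp (c * (p * k)) := by gcongr; linarith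
        _ = 1 := h2
    rw [mul_div_assoc', div_le_one hε] at h4
    linarith
  have hX4 : 4 * X ≤ 1 := by linarith
  set n := Fintype.card V with hn
  have hn1 : 1 ≤ n := Fintype.card_pos
  set m := ⌈ε / 16 * k * n⌉₊ with hm
  -- two rounds
  have hp2 : 0 < 2 - p := by linarith
  have htwo : 1 - p = (1 - p / 2) * (1 - p / (2 - p)) := by
    field_simp
    ring
  have hp2a : p / 2 ≤ p / (2 - p) := by
    apply div_le_div_of_nonneg_left hp0 hp2
    linarith
  have hp2b : p / (2 - p) ≤ 1 := by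
    rw [div_le_one hp2]
    linarith
  rw [EE_two_round G.edgeFinset p (p / 2) (p / (2 - p)) htwo]
  have hstep : ∀ S1 ⊆ G.edgeFinset,
      EE G.edgeFinset (p / (2 - p)) (fun S2 => noCyc ((1 - ε) * k) (S1 ∪ S2)) ≤
        bad [] univ G.edgeFinset m S1 + 4 * X := by
    intro S1 _
    by_cases hg : Good S1 [] univ G.edgeFinset m
    · have h1 := second_round G ε hε hε2 M N0 hM1 hM δ γ hδ hγ hdense k p c X hp0 hp1
        (by linarith) hk hcη hcγ hX hX4 hE S1 hg (p / (2 - p)) hp2a hp2b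
      have h2 : bad [] univ G.edgeFinset m S1 = 0 := by
        unfold bad
        rw [if_pos hg]
      rw [h2, zero_add]
      exact h1
    · have h2 : bad [] univ G.edgeFinset m S1 = 1 := by
        unfold bad
        rw [if_neg hg]
      rw [h2]
      have h3 : EE G.edgeFinset (p / (2 - p)) (fun S2 => noCyc ((1 - ε) * k) (S1 ∪ S2)) ≤ 1 := by
        calc _ ≤ EE G.edgeFinset (p / (2 - p)) (fun _ => 1) :=
              EE_mono _ _ (by linarith) hp2b _ _ fun S _ => noCyc_le_one _ _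
          _ = 1 := EE_const _ _ _
      linarith
  have h1 : EE G.edgeFinset (p / 2) (fun S1 => EE G.edgeFinset (p / (2 - p))
      (fun S2 => noCyc ((1 - ε) * k) (S1 ∪ S2))) ≤
      EE G.edgeFinset (p / 2) (bad [] univ G.edgeFinset m) + 4 * X := by
    calc _ ≤ EE G.edgeFinset (p / 2) (fun S1 => bad [] univ G.edgeFinset m S1 + 4 * X) :=
          EE_mono _ _ (by linarith) (by linarith) _ _ hstep
      _ = _ := by rw [EE_add, EE_const]
  have h2 : EE G.edgeFinset (p / 2) (bad [] univ G.edgeFinset m) ≤ 2 * X := by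
    refine (forest_prob G (p / 2) (by linarith) (by linarith) m).trans ?_
    have e1 : (1 - p / 2 / 2) ^ m ≤ X ^ n := by
      refine (one_sub_pow_le (p / 2 / 2) (by linarith) m).trans ?_
      rw [hX, ← Real.exp_nat_mul]
      apply Real.exp_le_exp.2
      have e2 : ε / 16 * k * n ≤ m := Nat.le_ceil _
      have e3 : p / 2 / 2 * (ε / 16 * k * n) ≤ p / 2 / 2 * m := by
        gcongr
      have e4 : c * (p * k) * n ≤ ε / 64 * (p * k) * n := by gcongr
      linarith
    calc (2 : ℝ) ^ n * (1 - p / 2 / 2) ^ m ≤ 2 ^ n * X ^ n := by gcongr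
      _ = (2 * X) ^ n := by rw [mul_pow]
      _ ≤ (2 * X) ^ 1 := pow_le_pow_of_le_one (by linarith) (by linarith) hn1
      _ = 2 * X := pow_one _
  linarith

end Pool.Agent.Helper23.LC
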